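import Pool.Agent.Lib.MP_fb3619_al.HW.Iface

/-!
# MP_fb3619_al, board HW: small facts
-/

set_option autoImplicit false

universe u

namespace Pool.Agent.FourGp.FF.Hw

open Pool.Agent.FourGp.H47 (Odd' inv_of_sq conj_inv_pow mul_inv_self odd_conj comm_of_inv
  mul_inv_self' comm_pow comm_inv conj_comm comm_conj)
open Pool.Agent.FourGp.H99 (LF)
open Pool.Agent.FourGp.FF.Abo
open Pool.Agent.FourGp.FF.Pq (TA mem_TA)
open Pool.Agent.FourGp.FF.Bs (MinC Min0 HerS CkS CmsS)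
open Pool.Agent.FourGp.FF.Fi (cjg Tm AT Fam)
open Pool.Agent.FourGp.FF.Fp

variable {G : Type u} [Group G] {K : Subgroup G} {a b c e : G} {p : ℕ}

/-- Exchange of `b` and `c`. -/
theorem Hm.sw (h : Hm K a b c e p) : Hm K a c b e p where
  mc := minC_swap' h.mc
  tb := h.tc.swap.rot
  tc := h.tb.swap.rot
  pe := by
    refine ⟨?_, fun u hu => h.pe.2 u ((mi_c h.mc.fr).2 hu)⟩
    rw [fx_ac h.mc.fr]
    exact h.pe.1
  ne := h.ne
  pp := h.pp
  ep := h.ep
  nor := by rw [fx_ac h.mc.fr]; exact h.nor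
  fb := h.fc
  fc := h.fb

end Pool.Agent.FourGp.FF.Hw
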