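import Pool.Agent.Lib.MP_fb3619_al.HW.Base

/-!
# MP_fb3619_al, board HW, row CHO: the chord
-/

set_option autoImplicit false

universe u

namespace Pool.Agent.FourGp.FF.Hw

open Pool.Agent.FourGp.H47 (Odd' inv_of_sq conj_inv_pow mul_inv_self odd_conj comm_of_inv
  mul_inv_self' comm_pow comm_inv conj_comm comm_conj)
open Pool.Agent.FourGp.FF.Abo
open Pool.Agent.FourGp.FF.Pq (TA mem_TA)

variable {G : Type u} [Group G] {K : Subgroup G} {a b c : G}

/-- an involution of type `c` which commutes with `b` inverts `T_b`. -/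
theorem ch_inv (h : Fr K a b c) {z t : G} (hz : z * z = 1) (hK : c * z ∈ K) (hb : z * b = b * z)
    (ht : t ∈ TA K b a) : z * t * z = t⁻¹ := by
  obtain ⟨⟨ht1, ht2⟩, ht3⟩ := (mem_TA h.swap).1 ht
  have hv : Mi K b a (c * z) := by
    refine ⟨mem_Cz.2 ⟨hK, ?_⟩, ?_⟩
    · calc c * z * b = c * (z * b) := by group
        _ = (c * b) * z := by rw [hb]; group
        _ = b * (c * z) := by rw [← h.cbc]; group
    · calc a * (c * z) * a = (a * c) * z * a := by group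
        _ = (b * z) * a := by rw [h.ac]
        _ = z * (b * a) := by rw [← hb]; group
        _ = z * c := by rw [h.ba]
        _ = (c * z)⁻¹ := by rw [mul_inv_rev, inv_of_sq hz, inv_of_sq h.cc]
  have h1 := ht3 _ hv
  have h2 : c * t * c = t⁻¹ := by
    have hbt : t * b = b * t := (mem_Cz.1 ht1).2
    calc c * t * c = (a * b) * t * c := by rw [h.ab]
      _ = a * (b * t) * c := by group
      _ = a * t * (b * c) := by rw [← hbt]; group
      _ = a * t * a := by rw [h.bc]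
      _ = t⁻¹ := ht2
  calc z * t * z = (c * c) * z * t * z := by rw [h.cc]; group
    _ = c * ((c * z) * t) * z := by group
    _ = c * (t * (c * z)) * z := by rw [h1]
    _ = c * t * c * (z * z) := by group
    _ = t⁻¹ := by rw [hz, mul_one, h2]

/-- an involution of type `c` which commutes with `a` commutes with `e`. -/
theorem ch_com (h : Fr K a b c) {e x : G} (he : Wt.Pv K a b e) (hx : x * x = 1) (hK : c * x ∈ K)
    (ha : x * a = a * x) : e * x = x * e := by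
  obtain ⟨he1, he2⟩ := he
  obtain ⟨-, hea, heb⟩ := mem_Fx.1 he1
  have hv : Mi K a b (c * x) := by
    refine ⟨mem_Cz.2 ⟨hK, ?_⟩, ?_⟩
    · calc c * x * a = c * (x * a) := by group
        _ = (c * a) * x := by rw [ha]; group
        _ = a * (c * x) := by rw [← h.cac]; group
    · calc b * (c * x) * b = (b * c) * x * b := by group
        _ = (a * x) * b := by rw [h.bc]
        _ = x * (a * b) := by rw [← ha]; group
        _ = x * c := by rw [h.ab]
        _ = (c * x)⁻¹ := by rw [mul_inv_rev, inv_of_sq hx, inv_of_sq h.cc]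
  have h1 := he2 _ hv
  have h2 : e * c = c * e := by
    rw [← h.ab]
    calc e * (a * b) = (e * a) * b := by group
      _ = a * (e * b) := by rw [hea]; group
      _ = a * b * e := by rw [heb]; group
  calc e * x = e * (c * c) * x := by rw [h.cc]; group
    _ = (e * c) * (c * x) := by group
    _ = c * (e * (c * x)) := by rw [h2]; group
    _ = c * ((c * x) * e) := by rw [h1]
    _ = (c * c) * x * e := by group
    _ = x * e := by rw [h.cc]; group

/-- if `x` commutes with `g` and with `b`, `x` commutes with `g⁻¹ b g`: so `g x g⁻¹` commutes with `b`. -/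
theorem ch_cj {x g b : G} (h1 : x * g = g * x) (h2 : x * b = b * x) :
    x * (g⁻¹ * b * g) = (g⁻¹ * b * g) * x := by
  have c1 : Commute x g := h1
  have c2 : Commute x b := h2
  exact ((c1.inv_right.mul_right c2).mul_right c1)

/-- `c (n z n⁻¹)` belongs to `K`. -/
theorem ch_ty (h : Fr K a b c) {z n : G} (hK : c * z ∈ K) (hn : n ∈ K) :
    c * (n * z * n⁻¹) ∈ K := by
  have h1 : c * n * c ∈ K := h.cjmem h.cc hn
  have e1 : c * (n * z * n⁻¹) = (c * n * c) * (c * z) * n⁻¹ := by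
    calc c * (n * z * n⁻¹) = c * n * 1 * z * n⁻¹ := by group
      _ = c * n * (c * c) * z * n⁻¹ := by rw [h.cc]
      _ = _ := by group
  rw [e1]
  exact K.mul_mem (K.mul_mem h1 hK) (K.inv_mem hn)

/-- CHO. -/
theorem cho : ChoS.{u} := by
  intro G _ K a b c e h he α m ρ w n k hα hm hmm hρ hw hbw hdec hn hk
  obtain ⟨hαK, hαa⟩ := mem_Cz.1 hα.1
  obtain ⟨hmK, hmb⟩ := mem_Cz.1 hm.1
  have hma : a * m * a = m⁻¹ := hm.2
  obtain ⟨hρK, hρb⟩ := mem_Cz.1 hρ.1
  have hρa : a * ρ * a = ρ⁻¹ := hρ.2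
  obtain ⟨heK, hea, heb⟩ := mem_Fx.1 he.1
  have heα : e * α = α * e := he.2 α hα
  have hec : e * c = c * e := by
    rw [← h.ab]
    calc e * (a * b) = (e * a) * b := by group
      _ = a * (e * b) := by rw [hea]; group
      _ = a * b * e := by rw [heb]; group
  -- generalise `m'`, `σ`, `σ'`
  obtain ⟨m', hm'⟩ : ∃ m', m' = e⁻¹ * m * e := ⟨_, rfl⟩
  obtain ⟨σ, hσ⟩ : ∃ σ, σ = ρ * ρ := ⟨_, rfl⟩
  obtain ⟨σ', hσ'⟩ : ∃ σ', σ' = e⁻¹ * σ * e := ⟨_, rfl⟩
  rw [← hm'] at hmm hn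
  rw [← hσ] at hdec hk
  rw [← hσ'] at hk
  have hσK : σ ∈ K := by rw [hσ]; exact K.mul_mem hρK hρK
  have hσb : σ * b = b * σ := by
    rw [hσ]
    have c1 : Commute ρ b := hρb
    exact c1.mul_left c1
  have hσa : a * σ * a = σ⁻¹ := by rw [hσ, cj_mul h.aa, hρa, mul_inv_rev]
  have hei : e⁻¹ * a = a * e⁻¹ := comm_inv hea
  have heib : e⁻¹ * b = b * e⁻¹ := comm_inv heb
  have hσ'K : σ' ∈ K := by rw [hσ']; exact h.cjk hσK
  have hσ'b : σ' * b = b * σ' := by
    rw [hσ']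
    calc e⁻¹ * σ * e * b = e⁻¹ * σ * (e * b) := by group
      _ = e⁻¹ * (σ * b) * e := by rw [heb]; group
      _ = (e⁻¹ * b) * σ * e := by rw [hσb]; group
      _ = b * (e⁻¹ * σ * e) := by rw [heib]; group
  have hcje : ∀ x : G, a * (e⁻¹ * x * e) * a = e⁻¹ * (a * x * a) * e := by
    intro x
    calc a * (e⁻¹ * x * e) * a = (a * e⁻¹) * x * (e * a) := by group
      _ = (e⁻¹ * a) * x * (a * e) := by rw [hei, hea]
      _ = e⁻¹ * (a * x * a) * e := by group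
  have hσ'a : a * σ' * a = σ'⁻¹ := by
    rw [hσ', hcje, hσa]; group
  have hm'a : a * m' * a = m'⁻¹ := by
    rw [hm', hcje, hma]; group
  have hcc' : ∀ x : G, x * b = b * x → a * x * a = x⁻¹ → c * x * c = x⁻¹ := by
    intro x h1 h2
    calc c * x * c = (a * b) * x * c := by rw [h.ab]
      _ = a * (b * x) * c := by group
      _ = a * x * (b * c) := by rw [← h1]; group
      _ = a * x * a := by rw [h.bc]
      _ = x⁻¹ := h2
  have hσc := hcc' σ hσb hσa
  have hσ'c := hcc' σ' hσ'b hσ'a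
  -- `a w a`
  have hwa : a * w * a = σ * w⁻¹ * σ⁻¹ := by
    have h1 : a * (σ * w) * a = (σ * w)⁻¹ := by
      rw [← hdec, cj_mul h.aa, cj_mul h.aa, cj_mul h.aa, hma, cj_inv h.aa]
      have h2 : a * α * a = α := by rw [← hαa, mul_assoc, h.aa, mul_one]
      rw [h2]; group
    rw [cj_mul h.aa, hσa] at h1
    calc a * w * a = σ * (σ⁻¹ * (a * w * a)) := by group
      _ = σ * w⁻¹ * σ⁻¹ := by rw [h1]; group
  have hbwi : b * w⁻¹ * b = w := by rw [cj_inv h.bb, hbw, inv_inv]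
  -- `σ c` commutes with `σ w a`
  have hy : (σ * c) * (σ * w * a) = (σ * w * a) * (σ * c) := by
    calc (σ * c) * (σ * w * a) = σ * c * σ * 1 * w * a := by group
      _ = σ * (c * σ * c) * (c * w * a) := by rw [← h.cc]; group
      _ = c * w * a := by rw [hσc]; group
      _ = b * (a * w * a) := by rw [← h.ba]; group
      _ = (b * σ) * w⁻¹ * 1 * σ⁻¹ := by rw [hwa]; group
      _ = σ * (b * w⁻¹ * b) * (b * σ⁻¹) := by rw [← hσb, ← h.bb]; group
      _ = σ * w * (σ⁻¹ * b) := by rw [hbwi, ← comm_inv hσb]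
      _ = σ * w * (a * σ * a) * b := by rw [hσa]; group
      _ = σ * w * a * σ * (a * b) := by group
      _ = (σ * w * a) * (σ * c) := by rw [h.ab]; group
  have hmaa : m * a = a * m⁻¹ := by
    calc m * a = (a * a) * m * a := by rw [h.aa]; group
      _ = a * (a * m * a) := by group
      _ = a * m⁻¹ := by rw [hma]
  have hm'aa : m' * a = a * m'⁻¹ := by
    calc m' * a = (a * a) * m' * a := by rw [h.aa]; group
      _ = a * (a * m' * a) := by group
      _ = a * m'⁻¹ := by rw [hm'a]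
  have hy2 : σ * w * a = (α * m) * a * (α * m)⁻¹ := by
    calc σ * w * a = α * (m * m) * (α⁻¹ * a) := by rw [← hdec]; group
      _ = α * m * (m * a) * α⁻¹ := by rw [comm_inv hαa]; group
      _ = (α * m) * a * (α * m)⁻¹ := by rw [hmaa]; group
  have hz1 : (σ * c) * (σ * c) = 1 := by
    calc (σ * c) * (σ * c) = σ * (c * σ * c) := by group
      _ = 1 := by rw [hσc]; group
  have hz1b : (σ * c) * b = b * (σ * c) := by
    calc (σ * c) * b = σ * (c * b) := by group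
      _ = (σ * b) * c := by rw [← h.cbc]; group
      _ = b * (σ * c) := by rw [hσb]; group
  have hz1K : c * (σ * c) ∈ K := by
    rw [← mul_assoc, hσc]; exact K.inv_mem hσK
  -- the involution `x`
  obtain ⟨x, hx⟩ : ∃ x, x = (α * m)⁻¹ * (σ * c) * (α * m) := ⟨_, rfl⟩
  have hxx : x * x = 1 := by
    rw [hx]
    calc (α * m)⁻¹ * (σ * c) * (α * m) * ((α * m)⁻¹ * (σ * c) * (α * m))
        = (α * m)⁻¹ * ((σ * c) * (σ * c)) * (α * m) := by group
      _ = 1 := by rw [hz1]; group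
  have hxK : c * x ∈ K := by
    have h1 := ch_ty h hz1K (K.inv_mem (K.mul_mem hαK hmK))
    rw [inv_inv] at h1
    rw [hx]; exact h1
  have hxa : x * a = a * x := by
    rw [hx]
    calc (α * m)⁻¹ * (σ * c) * (α * m) * a
        = (α * m)⁻¹ * ((σ * c) * ((α * m) * a * (α * m)⁻¹)) * (α * m) := by group
      _ = (α * m)⁻¹ * (((α * m) * a * (α * m)⁻¹) * (σ * c)) * (α * m) := by rw [← hy2, hy]
      _ = a * ((α * m)⁻¹ * (σ * c) * (α * m)) := by group
  have hxe : e * x = x * e := ch_com h he hxx hxK hxa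
  -- `σ c` commutes with `e n`
  have hme : m * e = e * m' := by rw [hm']; group
  have hmc : m' * m⁻¹ = m⁻¹ * m' := by
    calc m' * m⁻¹ = m⁻¹ * (m * m') * m⁻¹ := by group
      _ = m⁻¹ * (m' * m) * m⁻¹ := by rw [hmm]
      _ = m⁻¹ * m' := by group
  have hen : (α * m) * e * (α * m)⁻¹ = e * n := by
    rw [hn]
    calc (α * m) * e * (α * m)⁻¹ = α * (m * e) * m⁻¹ * α⁻¹ := by group
      _ = (α * e) * (m' * m⁻¹) * α⁻¹ := by rw [hme]; group
      _ = e * (α * (m⁻¹ * m') * α⁻¹) := by rw [← heα, hmc]; group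
  have hz1n : (σ * c) * (e * n) = (e * n) * (σ * c) := by
    rw [← hen]
    have h1 : σ * c = (α * m) * x * (α * m)⁻¹ := by rw [hx]; group
    rw [h1]
    calc (α * m) * x * (α * m)⁻¹ * ((α * m) * e * (α * m)⁻¹)
        = (α * m) * (x * e) * (α * m)⁻¹ := by group
      _ = (α * m) * (e * x) * (α * m)⁻¹ := by rw [hxe]
      _ = _ := by group
  -- `z2`
  have hz2 : (e * a)⁻¹ * (σ * c) * (e * a) = σ'⁻¹ * c := by
    have hai : a⁻¹ = a := inv_of_sq h.aa
    calc (e * a)⁻¹ * (σ * c) * (e * a) = a⁻¹ * e⁻¹ * σ * (c * e) * a := by group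
      _ = a * (e⁻¹ * σ * e) * (c * a) := by rw [← hec, hai]; group
      _ = (a * σ' * a) * c := by rw [← hσ', ← h.cac]; group
      _ = σ'⁻¹ * c := by rw [hσ'a]
  have hq : α * m * (e * a) = (e * a) * (α * m'⁻¹) := by
    calc α * m * (e * a) = α * (m * e) * a := by group
      _ = (α * e) * (m' * a) := by rw [hme]; group
      _ = e * (α * a) * m'⁻¹ := by rw [← heα, hm'aa]; group
      _ = (e * a) * (α * m'⁻¹) := by rw [hαa]; group
  have hx2 : x = (α * m'⁻¹)⁻¹ * (σ'⁻¹ * c) * (α * m'⁻¹) := by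
    have h1 : x * (e * a) = (e * a) * x := by
      calc x * (e * a) = (x * e) * a := by group
        _ = e * (x * a) := by rw [← hxe]; group
        _ = (e * a) * x := by rw [hxa]; group
    calc x = (e * a)⁻¹ * ((e * a) * x) := by group
      _ = (e * a)⁻¹ * x * (e * a) := by rw [← h1]; group
      _ = (α * m * (e * a))⁻¹ * (σ * c) * (α * m * (e * a)) := by rw [hx]; group
      _ = ((e * a) * (α * m'⁻¹))⁻¹ * (σ * c) * ((e * a) * (α * m'⁻¹)) := by rw [hq]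
      _ = (α * m'⁻¹)⁻¹ * ((e * a)⁻¹ * (σ * c) * (e * a)) * (α * m'⁻¹) := by group
      _ = _ := by rw [hz2]
  have hem' : e * m' = m * e := hme.symm
  have hen2 : (α * m'⁻¹) * e * (α * m'⁻¹)⁻¹ = n⁻¹ * e := by
    rw [hn]
    calc (α * m'⁻¹) * e * (α * m'⁻¹)⁻¹ = α * m'⁻¹ * (e * m') * α⁻¹ := by group
      _ = α * m'⁻¹ * m * (e * α⁻¹) := by rw [hem']; group
      _ = α * m'⁻¹ * m * (α⁻¹ * e) := by
        have : α⁻¹ * e = e * α⁻¹ := comm_inv heα.symm
        rw [this]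
      _ = (α * (m⁻¹ * m') * α⁻¹)⁻¹ * e := by group
  have hz2n : (σ'⁻¹ * c) * (n⁻¹ * e) = (n⁻¹ * e) * (σ'⁻¹ * c) := by
    rw [← hen2]
    have h1 : σ'⁻¹ * c = (α * m'⁻¹) * x * (α * m'⁻¹)⁻¹ := by rw [hx2]; group
    rw [h1]
    calc (α * m'⁻¹) * x * (α * m'⁻¹)⁻¹ * ((α * m'⁻¹) * e * (α * m'⁻¹)⁻¹)
        = (α * m'⁻¹) * (x * e) * (α * m'⁻¹)⁻¹ := by group
      _ = (α * m'⁻¹) * (e * x) * (α * m'⁻¹)⁻¹ := by rw [hxe]
      _ = _ := by group
  have hz2z : (σ'⁻¹ * c) * (σ'⁻¹ * c) = 1 := by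
    calc (σ'⁻¹ * c) * (σ'⁻¹ * c) = σ'⁻¹ * (c * σ'⁻¹ * c) := by group
      _ = 1 := by rw [cj_inv h.cc, hσ'c]; group
  have hz2b : (σ'⁻¹ * c) * b = b * (σ'⁻¹ * c) := by
    calc (σ'⁻¹ * c) * b = σ'⁻¹ * (c * b) := by group
      _ = (σ'⁻¹ * b) * c := by rw [← h.cbc]; group
      _ = b * (σ'⁻¹ * c) := by rw [comm_inv hσ'b]; group
  have hz2K : c * (σ'⁻¹ * c) ∈ K := by
    rw [← mul_assoc, cj_inv h.cc, hσ'c, inv_inv]; exact hσ'K
  have hnK : n ∈ K := by
    rw [hn]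
    have hm'K : m' ∈ K := by rw [hm']; exact h.cjk hmK
    exact K.mul_mem (K.mul_mem hαK (K.mul_mem (K.inv_mem hmK) hm'K)) (K.inv_mem hαK)
  -- both commute with `n⁻¹ b n`
  have hc1 : (σ * c) * (n⁻¹ * b * n) = (n⁻¹ * b * n) * (σ * c) := by
    have h1 := ch_cj hz1n hz1b
    have h2 : (e * n)⁻¹ * b * (e * n) = n⁻¹ * b * n := by
      calc (e * n)⁻¹ * b * (e * n) = n⁻¹ * (e⁻¹ * b) * e * n := by group
        _ = n⁻¹ * b * n := by rw [heib]; group
    rwa [h2] at h1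
  have hc2 : (σ'⁻¹ * c) * (n⁻¹ * b * n) = (n⁻¹ * b * n) * (σ'⁻¹ * c) := by
    have h0 : (σ'⁻¹ * c) * (n⁻¹ * e)⁻¹ = (n⁻¹ * e)⁻¹ * (σ'⁻¹ * c) := by
      have c1 : Commute (σ'⁻¹ * c) (n⁻¹ * e) := hz2n
      exact c1.inv_right
    have h1 := ch_cj h0 hz2b
    have h2 : (n⁻¹ * e)⁻¹⁻¹ * b * (n⁻¹ * e)⁻¹ = n⁻¹ * b * n := by
      calc (n⁻¹ * e)⁻¹⁻¹ * b * (n⁻¹ * e)⁻¹ = n⁻¹ * (e * b) * e⁻¹ * n := by group
        _ = n⁻¹ * b * n := by rw [heb]; group
    rwa [h2] at h1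
  have hinv : ∀ z t : G, z * z = 1 → c * z ∈ K → z * (n⁻¹ * b * n) = (n⁻¹ * b * n) * z →
      t ∈ TA K b a → z * (n⁻¹ * t * n) * z = (n⁻¹ * t * n)⁻¹ := by
    intro z t h1 h2 h3 ht
    have h4 : (n * z * n⁻¹) * b = b * (n * z * n⁻¹) := by
      calc (n * z * n⁻¹) * b = n * (z * (n⁻¹ * b * n)) * n⁻¹ := by group
        _ = n * ((n⁻¹ * b * n) * z) * n⁻¹ := by rw [h3]
        _ = _ := by group
    have h5 : (n * z * n⁻¹) * (n * z * n⁻¹) = 1 := by
      calc (n * z * n⁻¹) * (n * z * n⁻¹) = n * (z * z) * n⁻¹ := by group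
        _ = 1 := by rw [h1]; group
    have h6 := ch_inv h h5 (ch_ty h h2 hnK) h4 ht
    calc z * (n⁻¹ * t * n) * z = n⁻¹ * ((n * z * n⁻¹) * t * (n * z * n⁻¹)) * n := by group
      _ = n⁻¹ * t⁻¹ * n := by rw [h6]
      _ = _ := by group
  refine ⟨⟨mem_Cz.2 ⟨?_, ?_⟩, ?_⟩, ?_⟩
  · rw [hk]; exact K.mul_mem (K.mul_mem hρK hσ'K) hρK
  · rw [hk]
    have c1 : Commute ρ b := hρb
    have c2 : Commute σ' b := hσ'b
    exact ((c1.mul_left c2).mul_left c1)
  · rw [hk, cj_mul h.aa, cj_mul h.aa, hρa, hσ'a]; group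
  · intro t ht
    have i1 := hinv _ t hz1 hz1K hc1 ht
    have i2 := hinv _ t hz2z hz2K hc2 ht
    obtain ⟨s, hs⟩ : ∃ s, s = n⁻¹ * t * n := ⟨_, rfl⟩
    rw [← hs] at i1 i2 ⊢
    have j : s * (σ * σ') = (σ * σ') * s := by
      have hzz : σ * σ' = (σ * c) * (σ'⁻¹ * c) := by
        calc σ * σ' = σ * (c * σ'⁻¹ * c) := by rw [cj_inv h.cc, hσ'c, inv_inv]
          _ = _ := by group
      have k1 : (σ'⁻¹ * c) * s = s⁻¹ * (σ'⁻¹ * c) := by
        calc (σ'⁻¹ * c) * s = (σ'⁻¹ * c) * s * ((σ'⁻¹ * c) * (σ'⁻¹ * c)) := by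
              rw [hz2z, mul_one]
          _ = ((σ'⁻¹ * c) * s * (σ'⁻¹ * c)) * (σ'⁻¹ * c) := by group
          _ = _ := by rw [i2]
      have k2 : s * (σ * c) = (σ * c) * s⁻¹ := by
        rw [← i1]
        calc s * (σ * c) = 1 * s * (σ * c) := by group
          _ = ((σ * c) * (σ * c)) * s * (σ * c) := by rw [hz1]
          _ = _ := by group
      rw [hzz]
      calc s * ((σ * c) * (σ'⁻¹ * c)) = (s * (σ * c)) * (σ'⁻¹ * c) := by group
        _ = (σ * c) * (s⁻¹ * (σ'⁻¹ * c)) := by rw [k2]; group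
        _ = (σ * c) * ((σ'⁻¹ * c) * s) := by rw [k1]
        _ = _ := by group
    have hk2 : k = ρ⁻¹ * (σ * σ') * ρ := by rw [hk, hσ]; group
    rw [hk2]
    calc (ρ⁻¹ * s * ρ) * (ρ⁻¹ * (σ * σ') * ρ) = ρ⁻¹ * (s * (σ * σ')) * ρ := by group
      _ = ρ⁻¹ * ((σ * σ') * s) * ρ := by rw [j]
      _ = _ := by group

end Pool.Agent.FourGp.FF.Hw
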