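import Pool.Agent.Lib.MP_fb3619_al.HW.Base
import Pool.Agent.Lib.MP_fb3619_al.BS.Main

/-!
# MP_fb3619_al, board HW, row CKK (paper 4)
-/

set_option autoImplicit false

universe u

namespace Pool.Agent.FourGp.FF.Hw

open Pool.Agent.FourGp.H47 (Odd' inv_of_sq conj_inv_pow mul_inv_self odd_conj comm_of_inv
  mul_inv_self' comm_pow comm_inv conj_comm comm_conj)
open Pool.Agent.FourGp.H99 (LF)
open Pool.Agent.FourGp.FF.Abo
open Pool.Agent.FourGp.FF.Pq (TA mem_TA)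
open Pool.Agent.FourGp.FF.Bs (MinC Min0 HerS CkS CmsS)
open Pool.Agent.FourGp.FF.Fi (cjg Tm AT Fam)
open Pool.Agent.FourGp.FF.Fp

/-- The centralizer of a set of elements which are inverted by `a` and centralised by `b`. -/
theorem ckk_inv {G : Type u} [Group G] {K : Subgroup G} {a b c : G} (h : Fr K a b c) {X : Set G}
    (hX : ∀ x ∈ X, Mi K b a x) : VInv a b (K ⊓ Subgroup.centralizer X : Subgroup G) := by
  constructor
  · intro u hu
    rw [Subgroup.mem_inf, Subgroup.mem_centralizer_iff] at hu ⊢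
    refine ⟨h.cjmem h.aa hu.1, fun x hx => ?_⟩
    exact (Bs.cen_cj h.aa (Or.inr (hX x hx).2) (hu.2 x hx).symm).symm
  · intro u hu
    rw [Subgroup.mem_inf, Subgroup.mem_centralizer_iff] at hu ⊢
    refine ⟨h.cjmem h.bb hu.1, fun x hx => ?_⟩
    exact (Bs.cen_cj h.bb (Or.inl (cj_fix h.bb (mem_Cz.1 (hX x hx).1).2)) (hu.2 x hx).symm).symm

theorem ckk (dic : DicS.{u}) (rl : RlS.{u}) : CkkS.{u} := by
  have hC : CkS.{u} := Bs.ck'
  intro G _ K a b c e p h k hk hf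
  have m := h.mc
  have hr := m.fr
  have heF : e ∈ Fx K a b := h.pe.1
  have hkb : k * b = b * k := (mem_Cz.1 hk.1).2
  -- `J`
  have hJV : VInv a b (K ⊓ Subgroup.centralizer {k} : Subgroup G) :=
    ckk_inv hr (by intro x hx; rw [Set.mem_singleton_iff] at hx; rw [hx]; exact hk)
  have hJL : LF (K ⊓ Subgroup.centralizer {k} : Subgroup G) :=
    (hC G K a b c m.toMin0).2.1 k (Or.inr hk.2) (Or.inl (cj_fix hr.bb hkb)) hf
  -- conjugates of `k`
  set X : Set G := {x | ∃ i : ℤ, x = (e ^ i)⁻¹ * k * e ^ i} with hX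
  have hXm : ∀ x ∈ X, Mi K b a x := by
    rintro x ⟨i, rfl⟩
    have : e ^ i ∈ Fx K b a := by
      rw [← Fr.fx_swap]
      exact (Fx K a b).zpow_mem heF i
    exact mi_conj hr.swap this hk
  have hkX : k ∈ X := ⟨0, by group⟩
  set J1 : Subgroup G := K ⊓ Subgroup.centralizer X with hJ1
  have hJ1J : J1 ≤ K ⊓ Subgroup.centralizer {k} := by
    intro x hx
    rw [hJ1, Subgroup.mem_inf, Subgroup.mem_centralizer_iff] at hx
    rw [Subgroup.mem_inf, Subgroup.mem_centralizer_singleton_iff]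
    exact ⟨hx.1, (hx.2 k hkX).symm⟩
  have hJ1V : VInv a b J1 := ckk_inv hr hXm
  have hJ1L : LF J1 := LF_mono hJ1J hJL
  have hJ1e : ∀ l ∈ J1, e⁻¹ * l * e ∈ J1 := by
    intro l hl
    refine cent_conj hr ?_ hl
    rintro x ⟨i, rfl⟩
    refine ⟨i - 1, ?_⟩
    rw [zpow_sub_one]
    group
  -- `T_b ≤ J1`
  have hT1 : TA K b a ≤ J1 := by
    intro t ht
    rw [hJ1, Subgroup.mem_inf, Subgroup.mem_centralizer_iff]
    exact ⟨ta_leK hr.swap ht, fun x hx => (ta_mi_comm hr.swap ht (hXm x hx)).symm⟩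
  have hTi : (TA K b a).relIndex (Cz K b) ≠ 0 := ta_ind hr.swap h.tb.swap
  have hJ1i : J1.relIndex (Cz K b) ≠ 0 := ind_mono hTi hT1
  have hJi : (K ⊓ Subgroup.centralizer {k} : Subgroup G).relIndex (Cz K b) ≠ 0 :=
    ind_mono hJ1i hJ1J
  have hc1 := rl G K a b c e p h J1 inf_le_left hJ1V hJ1L hJ1e hJ1i
  have ha1 := (dic G K a b c m h.tb h.tc J1 inf_le_left hJ1V hJ1L hJ1i).1.1 hc1
  -- `J ∩ A` is finite
  have haJ : {x | x ∈ (K ⊓ Subgroup.centralizer {k} : Subgroup G) ∧ x ∈ Cz K a}.Finite := by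
    refine ((m.fin.prod ha1).image (fun q : G × G => q.1 * q.2)).subset ?_
    rintro x ⟨hxJ, hxa⟩
    obtain ⟨w, s, hw, hs, e1, hwb, hsb⟩ := hr.dec
      (X := (K ⊓ Subgroup.centralizer {k} : Subgroup G) ⊓ Cz K a) (inf_le_left.trans inf_le_left)
      hr.bb (fun u hu => ⟨hJV.2 u hu.1, hr.cz_inv hr.bb hr.cab.symm hu.2⟩) ⟨hxJ, hxa⟩
    refine ⟨(w, s), ⟨?_, ?_, hs.2⟩, e1.symm⟩
    · exact mem_Fx.2 ⟨(mem_Cz.1 hw.2).1, (mem_Cz.1 hw.2).2, hwb⟩
    · show s ∈ J1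
      rw [hJ1, Subgroup.mem_inf, Subgroup.mem_centralizer_iff]
      refine ⟨(mem_Cz.1 hs.2).1, ?_⟩
      rintro x ⟨i, rfl⟩
      have c1 : Commute e s := h.pe.2 s ⟨hs.2, hsb⟩
      have c2 : Commute k s := (Subgroup.mem_centralizer_singleton_iff.1 hs.1.2).symm
      have c3 : Commute (e ^ i) s := c1.zpow_left i
      exact ((c3.inv_left.mul_left c2).mul_left c3).eq
  have d := dic G K a b c m h.tb h.tc (K ⊓ Subgroup.centralizer {k} : Subgroup G) inf_le_left hJV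
    hJL hJi
  exact d.2 (d.1.2 haJ)

end Pool.Agent.FourGp.FF.Hw
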