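import Pool.Agent.Lib.MP_fb3619_al.HW.Base
import Pool.Agent.Lib.MP_fb3619_al.FF.Fac

/-!
# MP_fb3619_al, board HW, row DEC (paper 6)
-/

set_option autoImplicit false

universe u

namespace Pool.Agent.FourGp.FF.Hw

open Pool.Agent.FourGp.H47 (Odd' inv_of_sq conj_inv_pow mul_inv_self odd_conj comm_of_inv
  mul_inv_self' comm_pow comm_inv conj_comm comm_conj)

theorem dec_zinv {G : Type u} [Group G] {z x y : G} (hz : z * z = 1) (h : z * x * z = y) :
    z * x⁻¹ * z = y⁻¹ := by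
  rw [← h, mul_inv_rev, mul_inv_rev, inv_of_sq hz, mul_assoc]

theorem dec : DecS.{u} := by
  intro G _ K a b c h α m hα hm
  have hαK : α ∈ K := (mem_Cz.1 hα.1).1
  have hαa : α * a = a * α := (mem_Cz.1 hα.1).2
  have hmK : m ∈ K := (mem_Cz.1 hm.1).1
  set u := α * (m * m) * α⁻¹ with hu
  have huK : u ∈ K := K.mul_mem (K.mul_mem hαK (K.mul_mem hmK hmK)) (K.inv_mem hαK)
  have hua : a * u * a = u⁻¹ := by
    have e1 : a * α⁻¹ = α⁻¹ * a := by
      have c1 : Commute α a := hαa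
      exact c1.inv_left.eq.symm
    have e2 : a * (m * m) * a = (m * m)⁻¹ := by
      calc a * (m * m) * a = (a * m * a) * (a * a)⁻¹ * (a * m * a) := by group
        _ = (m * m)⁻¹ := by rw [h.aa, hm.2]; group
    calc a * u * a = (a * α) * (m * m) * (α⁻¹ * a) := by rw [hu]; group
      _ = (α * a) * (m * m) * (a * α⁻¹) := by rw [hαa, e1]
      _ = α * (a * (m * m) * a) * α⁻¹ := by group
      _ = u⁻¹ := by rw [e2, hu]; group
  obtain ⟨σ, w, hσK, hwK, e, hσb, hwb⟩ := h.dec (X := K) le_rfl h.bb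
    (fun d hd => h.cjmem h.bb hd) huK
  have hab : a * b = b * a := h.cab
  have hab' : b * a = a * b := h.cab.symm
  -- `σ` is inverted by `a`
  have hσa : a * σ * a = σ⁻¹ := by
    refine (h.dec_uniq (z := b) (w := a * σ * a) (s := a * w * a) (w' := σ⁻¹)
      (s' := σ * w⁻¹ * σ⁻¹) h.bb (h.cjmem h.aa hwK)
      (K.mul_mem (K.mul_mem hσK (K.inv_mem hwK)) (K.inv_mem hσK)) ?_ ?_ ?_ ?_ ?_).1
    · calc a * σ * a * b = a * σ * (a * b) := by group
        _ = a * (σ * b) * a := by rw [hab]; group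
        _ = (a * b) * σ * a := by rw [hσb]; group
        _ = b * (a * σ * a) := by rw [hab]; group
    · have c1 : Commute σ b := hσb
      exact c1.inv_left.eq
    · have q1 : (b * a) * w * (a * b) = (a * b) * w * (b * a) := by rw [h.ba, h.ab]
      calc b * (a * w * a) * b = (b * a) * w * (a * b) := by group
        _ = a * (b * w * b) * a := by rw [q1]; group
        _ = (a * w * a)⁻¹ := by
          rw [hwb, mul_inv_rev, mul_inv_rev, inv_of_sq h.aa, mul_assoc]
    · have c1 : Commute σ b := hσb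
      have e1 : b * σ = σ * b := c1.eq.symm
      have e2 : σ⁻¹ * b = b * σ⁻¹ := c1.inv_left.eq
      have e3 := dec_zinv h.bb hwb
      calc b * (σ * w⁻¹ * σ⁻¹) * b = (b * σ) * w⁻¹ * (σ⁻¹ * b) := by group
        _ = σ * (b * w⁻¹ * b) * σ⁻¹ := by rw [e1, e2]; group
        _ = (σ * w⁻¹ * σ⁻¹)⁻¹ := by rw [e3]; group
    · calc a * σ * a * (a * w * a) = a * σ * (a * a) * w * a := by group
        _ = a * (σ * w) * a := by rw [h.aa]; group
        _ = u⁻¹ := by rw [← e, hua]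
        _ = σ⁻¹ * (σ * w⁻¹ * σ⁻¹) := by rw [e]; group
  obtain ⟨j, hj⟩ := (h.odd σ hσK).sqrt
  refine ⟨σ ^ j, w, ⟨mem_Cz.2 ⟨K.pow_mem hσK j, ?_⟩, conj_inv_pow h.aa hσa j⟩, hwK, hwb, ?_⟩
  · have c1 : Commute σ b := hσb
    exact (c1.pow_left j).eq
  · rw [hj, e]

end Pool.Agent.FourGp.FF.Hw
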