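import Pool.Agent.Lib.MP_fb3619_al.HW.Base
import Pool.Agent.Lib.MP_fb3619_al.H71.Hlv

/-!
# MP_fb3619_al, board HW, row DIC (paper 2): the dichotomy
-/

set_option autoImplicit false

universe u

namespace Pool.Agent.FourGp.FF.Hw

open Pool.Agent.FourGp.FF.Bs (MinC)
open Pool.Agent.FourGp.FF.Fp

theorem dic (lu : LuS.{u}) : DicS.{u} := by
  intro G _ K a b c m tb tc L hLK hLV hLL hLb
  have h := m.fr
  obtain ⟨u2, u1, -, -⟩ := lu G K a b c m tc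
  have hb : (Pq.TA K b a).relIndex (Cz K b) ≠ 0 := hdf_ind h tb
  -- the frame `(c, b, a)`
  have h' : Fr K c b a := h.rot.swap
  have hF' : (Fx K c b : Set G).Finite := by rw [fx_cb h]; exact m.fin
  have hb' : (Pq.TA K b c).relIndex (Cz K b) ≠ 0 := by
    rw [← ta_swap h.swap]; exact hb
  have d1 : {x | x ∈ L ∧ x ∈ Cz K c}.Finite → {x | x ∈ L ∧ x ∈ Cz K a}.Finite :=
    Hz.dic h m.fin hb u2 hLK hLV hLb
  have d2 : {x | x ∈ L ∧ x ∈ Cz K a}.Finite → {x | x ∈ L ∧ x ∈ Cz K c}.Finite :=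
    Hz.dic h' hF' hb' u1 hLK (hLV.rot h).swap hLb
  refine ⟨⟨d1, d2⟩, fun hc => ?_⟩
  have ha := d1 hc
  have hV : VInv a b (Cz K b ⊓ L) := by
    have h1 : VInv a b (Cz K b) :=
      ⟨fun u hu => h.cz_inv h.aa h.cab hu, fun u hu => h.cz_inv h.bb rfl hu⟩
    exact ⟨fun u hu => ⟨h1.1 u hu.1, hLV.1 u hu.2⟩, fun u hu => ⟨h1.2 u hu.1, hLV.2 u hu.2⟩⟩
  have hfin : ∀ v, {x | x ∈ L ∧ x ∈ Cz K v}.Finite →
      (Cz K b ⊓ L).relIndex (L ⊓ Subgroup.centralizer {v}) ≠ 0 := by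
    intro v hv
    have h1 : ((L ⊓ Subgroup.centralizer {v} : Subgroup G) : Set G).Finite := by
      refine hv.subset ?_
      rintro x ⟨hx1, hx2⟩
      exact ⟨hx1, mem_Cz.2 ⟨hLK hx1, Subgroup.mem_centralizer_singleton_iff.1 hx2⟩⟩
    refine Fct.idx (R := ((L ⊓ Subgroup.centralizer {v} : Subgroup G) : Set G)) h1 ?_
    intro g hg
    exact ⟨g, hg, 1, Subgroup.one_mem _, (one_mul g).symm⟩
  have h2 := cnt G K a b c h m.fin L (Cz K b ⊓ L) hLK inf_le_right hLV hV hLL ?_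
  · exact fun h0 => h2 (Subgroup.relIndex_eq_zero_of_le_left inf_le_left h0)
  · rintro v (rfl | rfl | rfl)
    · exact hfin _ ha
    · have e : L ⊓ Subgroup.centralizer {v} ≤ Cz K v ⊓ L := by
        rintro x ⟨hx1, hx2⟩
        exact ⟨mem_Cz.2 ⟨hLK hx1, Subgroup.mem_centralizer_singleton_iff.1 hx2⟩, hx1⟩
      rw [Subgroup.relIndex_eq_one.2 e]
      exact one_ne_zero
    · exact hfin _ hc

end Pool.Agent.FourGp.FF.Hw
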