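import Pool.Agent.Lib.MP_fb3619_al.HW.Base
import Pool.Agent.Lib.MP_fb3619_al.BS.Rv
import Pool.Agent.Lib.MP_fb3619_al.FP.Hdf

/-!
# MP_fb3619_al, board HW, row END (paper 9)
-/

set_option autoImplicit false

universe u

namespace Pool.Agent.FourGp.FF.Hw

open Pool.Agent.FourGp.H47 (Odd' inv_of_sq conj_inv_pow mul_inv_self odd_conj comm_of_inv
  mul_inv_self' comm_pow comm_inv conj_comm comm_conj)
open Pool.Agent.FourGp.H99 (LF)
open Pool.Agent.FourGp.FF.Abo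
open Pool.Agent.FourGp.FF.Pq (TA mem_TA)
open Pool.Agent.FourGp.FF.Bs (MinC Min0 HerS CkS CmsS)
open Pool.Agent.FourGp.FF.Fi (cjg mem_cjg Tm AT Fam)
open Pool.Agent.FourGp.FF.Fp

theorem fin (lu : LuS.{u}) (nrm : NrmS.{u}) (sub : SubS.{u}) : EndS.{u} := by
  intro G _ K a b c e p H
  have h := H.mc.fr
  have hF := H.mc.fin
  have hsw : Fr K b a c := h.swap
  have hTi : (TA K b a).relIndex (Cz K b) ≠ 0 := hdf_ind h H.tb
  obtain ⟨la, -, -, lind⟩ := lu G K a b c H.mc H.tc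
  set D := Cz K b with hD
  have hTK : ∀ t ∈ TA K b a, t ∈ K := fun t ht => ta_leK hsw ht
  -- the commensurator
  have key : ∀ α, Mi K a b α → ∃ f ∈ Fx K a b, fi D (f⁻¹ * α⁻¹) := by
    intro α hα
    have hαK : α ∈ K := (mem_Cz.1 hα.1).1
    have h1 : ∀ t ∈ TA K b a, ∃ f ∈ Fx K a b, fi D (f⁻¹ * (α * t * α⁻¹)) := by
      intro t ht
      obtain ⟨m, hm, e1⟩ := nrm G K a b c e p H t ht
      have := sub G K a b c e p H α hα m hm
      rw [e1]
      exact this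
    -- `D` has finite relIndex in `α T_b α⁻¹`
    have h2 : D.relIndex (cjg α (TA K b a)) ≠ 0 := by
      obtain ⟨R, -, hR⟩ := cover_of_relIndex lind
      refine relIndex_of_cover (R : Set G) R.finite_toSet ?_
      intro g hg
      rw [mem_cjg] at hg
      obtain ⟨f, hf, h3⟩ := h1 _ hg
      have e1 : α * (α⁻¹ * g * α) * α⁻¹ = g := by group
      rw [e1] at h3
      have hgK : g ∈ K := by
        rw [← e1]
        exact K.mul_mem (K.mul_mem hαK (hTK _ hg)) (K.inv_mem hαK)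
      have hfK : f ∈ K := (mem_Fx.1 hf).1
      obtain ⟨r, hr, h4⟩ := hR (f⁻¹ * g) (Subgroup.mem_inf.2
        ⟨K.mul_mem (K.inv_mem hfK) hgK, h3⟩)
      refine ⟨r, hr, ?_⟩
      have e2 : g * r⁻¹ = f * (f⁻¹ * g * r⁻¹) := by group
      rw [e2]
      exact D.mul_mem (fx_czb hf) h4
    -- conjugate by `α⁻¹`
    have h3 : (cjg α⁻¹ D).relIndex (TA K b a) ≠ 0 := by
      intro h0
      apply h2
      have e1 : D = cjg α (cjg α⁻¹ D) := by
        ext x
        rw [mem_cjg, mem_cjg]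
        have : α⁻¹⁻¹ * (α⁻¹ * x * α) * α⁻¹ = x := by group
        rw [this]
      rw [e1]
      unfold cjg at h0 ⊢
      rw [Subgroup.relIndex_comap]
      rw [Subgroup.map_comap_eq_self_of_surjective (MulAut.conj (α)⁻¹).surjective _]
      exact h0
    have h4 : (cjg α⁻¹ D).relIndex D ≠ 0 := Subgroup.relIndex_ne_zero_trans h3 hTi
    exact Bs.rv G K a b c h hF α⁻¹ (K.inv_mem hαK) h4
  -- `A^-` is finite
  have hfin : {α | Mi K a b α}.Finite := by
    refine ((Set.Finite.image2 (fun f x => (f * x)⁻¹) hF la)).subset ?_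
    intro α hα
    obtain ⟨f, hf, h1⟩ := key α hα
    refine ⟨f, hf, f⁻¹ * α⁻¹, ⟨?_, h1⟩, ?_⟩
    · exact (Cz K a).mul_mem ((Cz K a).inv_mem (fx_cza hf)) ((Cz K a).inv_mem hα.1)
    · simp only []
      group
  have hA : (Cz K a : Set G).Finite := by
    refine (Set.Finite.image2 (fun f x => f * x) hF hfin).subset ?_
    intro d hd
    obtain ⟨w, s, hw, hs, e1, hwb, hsb⟩ := h.dec (X := Cz K a) cz_le h.bb
      (fun u hu => h.cz_inv h.bb h.cab.symm hu) hd
    exact ⟨w, mem_Fx.2 ⟨(mem_Cz.1 hw).1, (mem_Cz.1 hw).2, hwb⟩, s, ⟨hs, hsb⟩, e1.symm⟩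
  exact H.mc.nlf (lf_of_finite shu hsw hA.to_subtype)

end Pool.Agent.FourGp.FF.Hw
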