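import Pool.Agent.Lib.MP_fb3619_al.HW.Base

/-!
# MP_fb3619_al, board HW, row EX (paper 0): existence of the element `e`
-/

set_option autoImplicit false

universe u

namespace Pool.Agent.FourGp.FF.Hw

open Pool.Agent.FourGp.H47 (Odd' inv_of_sq conj_inv_pow mul_inv_self odd_conj comm_of_inv
  mul_inv_self' comm_pow comm_inv conj_comm comm_conj)
open Pool.Agent.FourGp.H99 (LF)
open Pool.Agent.FourGp.FF.Abo
open Pool.Agent.FourGp.FF.Pq (TA mem_TA)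
open Pool.Agent.FourGp.FF.Bs (MinC Min0 HerS CkS CmsS)
open Pool.Agent.FourGp.FF.Fi (cjg Tm AT Fam)
open Pool.Agent.FourGp.FF.Fp

/-- **Row EX.** -/
theorem ex (xwe : Wt.XweS.{u}) (xwt : Wt.XwtS.{u}) (cyc : Wt.CycS.{u}) (q : Wt.QS.{u}) :
    ExS.{u} := by
  intro G _ K a b c m ha hb hc
  have h := m.fr
  obtain ⟨X, hX⟩ := xwe G K a b c h m.fin
  have hcm : Wt.Cm X ≠ ⊥ := fun h0 => ha (Vt.tm_of_ta h (xwt G K a b c h m.fin X hX h0))
  -- an element `z ≠ 1` of `X ∩ F`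
  obtain ⟨z, hzX, hzF, hz1⟩ : ∃ z ∈ X, z ∈ Fx K a b ∧ z ≠ 1 := by
    by_contra hcon
    push Not at hcon
    apply hcm
    rw [eq_bot_iff]
    unfold Wt.Cm
    rw [Subgroup.closure_le]
    rintro z ⟨x, hx, y, hy, rfl⟩
    exact Subgroup.mem_bot.2 (hcon _ (X.mul_mem (X.mul_mem (X.mul_mem (X.inv_mem hx)
      (X.inv_mem hy)) hx) hy) (hX.cm x hx y hy))
  -- a prime `p`
  obtain ⟨n, hn⟩ := h.odd z (fx_le hzF)
  have ho0 : orderOf z ≠ 0 := by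
    have hd := orderOf_dvd_of_pow_eq_one hn
    intro h0
    rw [h0] at hd
    have := Nat.eq_zero_of_zero_dvd hd
    omega
  have ho1 : orderOf z ≠ 1 := fun h1 => hz1 (orderOf_eq_one_iff.1 h1)
  obtain ⟨p, hp, hpd⟩ := Nat.exists_prime_and_dvd ho1
  obtain ⟨k, hk⟩ := hpd
  have hk0 : k ≠ 0 := by
    rintro rfl
    exact ho0 (by rw [hk, mul_zero])
  have hek : z ^ k ≠ 1 := by
    intro h1
    have hd := orderOf_dvd_of_pow_eq_one h1
    have hle := Nat.le_of_dvd (Nat.pos_of_ne_zero hk0) hd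
    rw [hk] at hle
    have h2 := hp.two_le
    have h3 : 2 * k ≤ p * k := Nat.mul_le_mul_right _ h2
    omega
  have hekp : (z ^ k) ^ p = 1 := by
    rw [← pow_mul, mul_comm k p, ← hk]
    exact pow_orderOf_eq_one z
  -- the subgroup `Z`
  let Z : Subgroup G :=
    { carrier := {x | (x ∈ X ∧ x ∈ Fx K a b) ∧ x ^ p = 1}
      mul_mem' := by
        rintro x y ⟨⟨hx1, hx2⟩, hx3⟩ ⟨⟨hy1, hy2⟩, hy3⟩
        refine ⟨⟨X.mul_mem hx1 hy1, (Fx K a b).mul_mem hx2 hy2⟩, ?_⟩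
        have hc1 : Commute x y := hX.cex x hx1 hx2 y hy1
        rw [hc1.mul_pow, hx3, hy3, one_mul]
      one_mem' := ⟨⟨X.one_mem, (Fx K a b).one_mem⟩, one_pow p⟩
      inv_mem' := by
        rintro x ⟨⟨hx1, hx2⟩, hx3⟩
        refine ⟨⟨X.inv_mem hx1, (Fx K a b).inv_mem hx2⟩, ?_⟩
        rw [inv_pow, hx3, inv_one] }
  have memZ : ∀ x, x ∈ Z ↔ (x ∈ X ∧ x ∈ Fx K a b) ∧ x ^ p = 1 := fun x => Iff.rfl
  have hZP : ∀ z ∈ Z, Wt.Pv K a b z := by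
    intro z hz
    obtain ⟨⟨h1, h2⟩, -⟩ := (memZ z).1 hz
    exact ⟨h2, hX.cen z h1 h2⟩
  have hZn : ∀ f ∈ Fx K a b, ∀ z ∈ Z, f⁻¹ * z * f ∈ Z := by
    intro f hf z hz
    obtain ⟨⟨h1, h2⟩, h3⟩ := (memZ z).1 hz
    obtain ⟨hf1, hf2, -⟩ := mem_Fx.1 hf
    refine (memZ _).2 ⟨⟨hX.nor f (mem_Cz.2 ⟨hf1, hf2⟩) z h1,
      (Fx K a b).mul_mem ((Fx K a b).mul_mem ((Fx K a b).inv_mem hf) h2) hf⟩, ?_⟩
    have e1 : (f⁻¹ * z * f) ^ p = f⁻¹ * z ^ p * f := by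
      have h4 := conj_pow (i := p) (a := f⁻¹) (b := z)
      rw [inv_inv] at h4
      exact h4
    rw [e1, h3]
    group
  have hZp : ∀ z ∈ Z, z ^ p = 1 := fun z hz => ((memZ z).1 hz).2
  have hZc : ∀ z ∈ Z, ∀ z' ∈ Z, z * z' = z' * z := by
    intro z hz z' hz'
    obtain ⟨⟨h1, h2⟩, -⟩ := (memZ z).1 hz
    obtain ⟨⟨h1', -⟩, -⟩ := (memZ z').1 hz'
    exact hX.cex z h1 h2 z' h1'
  have hzk : z ^ k ∈ Z := (memZ _).2 ⟨⟨X.pow_mem hzX k, (Fx K a b).pow_mem hzF k⟩, hekp⟩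
  have hZne : Z ≠ ⊥ := by
    intro h0
    rw [h0] at hzk
    exact hek (Subgroup.mem_bot.1 hzk)
  obtain ⟨e, heZ, hze⟩ := cyc G K a b c m Z hZP hZn p hp hZp hZc
  obtain ⟨q1, q2⟩ := q G K a b c m Z hZP hZn hZne
  have hcz : ∀ x : G, x * e = e * x → ∀ z ∈ Z, x * z = z * x := by
    intro x hx z hz
    rw [← hze] at hz
    obtain ⟨j, rfl⟩ := Subgroup.mem_zpowers_iff.1 hz
    have c1 : Commute x e := hx
    exact (c1.zpow_right j).eq
  refine ⟨e, p, ?_⟩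
  exact
    { mc := m
      tb := hb
      tc := hc
      pe := hZP e heZ
      ne := by
        rintro rfl
        apply hZne
        rw [← hze, Subgroup.zpowers_one_eq_bot]
      pp := hp
      ep := hZp e heZ
      nor := by
        intro f hf
        rw [hze]
        exact hZn f hf e heZ
      fb := q1.subset fun x hx => ⟨hx.1, hcz x hx.2⟩
      fc := q2.subset fun x hx => ⟨hx.1, hcz x hx.2⟩ }

end Pool.Agent.FourGp.FF.Hw
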