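import Pool.Agent.Lib.MP_fb3619_al.HW.Base
import Pool.Agent.Lib.MP_fb3619_al.FP.Lmv

/-!
# MP_fb3619_al, board HW, row EXC (paper 7): for almost all `m` the element `k` is moved by `F`
-/

set_option autoImplicit false

universe u

namespace Pool.Agent.FourGp.FF.Hw

open Pool.Agent.FourGp.H47 (Odd' inv_of_sq conj_inv_pow mul_inv_self odd_conj comm_of_inv
  mul_inv_self' comm_pow comm_inv conj_comm comm_conj)
open Pool.Agent.FourGp.H99 (LF)
open Pool.Agent.FourGp.FF.Abo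
open Pool.Agent.FourGp.FF.Pq (TA mem_TA)
open Pool.Agent.FourGp.FF.Bs (MinC Min0 HerS CkS CmsS)
open Pool.Agent.FourGp.FF.Fi (cjg Tm AT Fam)
open Pool.Agent.FourGp.FF.Fp

variable {G : Type u} [Group G] {K : Subgroup G} {a b c e : G} {p : ℕ}

/-- `k` as a function of `ρ`. -/
def exck (e r : G) : G := r * (e⁻¹ * (r * r) * e) * r

theorem exc_calc {u r U R : G} (c1 : r * u = u * r) (c2 : r * U = U * r) (c3 : R * u = u * R)
    (c4 : R * U = U * R) :
    u * r * (U * R * (U * R)) * (u * r) = u * U * U * u * (r * (R * R) * r) := by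
  calc u * r * (U * R * (U * R)) * (u * r) = u * r * U * (R * U) * (R * u) * r := by group
    _ = u * r * U * (U * R) * (u * R) * r := by rw [c4, c3]
    _ = u * (r * U) * U * (R * u) * R * r := by group
    _ = u * (U * r) * U * (u * R) * R * r := by rw [c2, c3]
    _ = u * U * (r * U) * u * R * R * r := by group
    _ = u * U * (U * r) * u * R * R * r := by rw [c2]
    _ = u * U * U * (r * u) * R * R * r := by group
    _ = u * U * U * (u * r) * R * R * r := by rw [c1]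
    _ = _ := by group

/-- An element of odd order with trivial square is trivial. -/
theorem exc_one {x : G} (hx : Odd' x) (h : x * x = 1) : x = 1 := by
  obtain ⟨k, hk⟩ := hx.sqrt
  have e : x = (x * x) ^ k := by
    rw [(Commute.refl x).mul_pow, hk]
  rw [e, h, one_pow]

/-- An element of odd order inverted by an element of odd order is trivial. -/
theorem exc_inv {x e : G} (hx : Odd' x) (he : Odd' e) (h : e⁻¹ * x * e = x⁻¹) : x = 1 := by
  have h1 : Commute x (e * e) := by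
    have h2 : (e * e)⁻¹ * x * (e * e) = x := by
      calc (e * e)⁻¹ * x * (e * e) = e⁻¹ * (e⁻¹ * x * e) * e := by group
        _ = e⁻¹ * x⁻¹ * e := by rw [h]
        _ = (e⁻¹ * x * e)⁻¹ := by group
        _ = x := by rw [h, inv_inv]
    exact (comm_conj h2).symm
  have h3 : Commute x e := lmv_sq he h1
  have h4 : e⁻¹ * x * e = x := by
    rw [mul_assoc, h3.eq]
    group
  rw [h4] at h
  refine exc_one hx ?_
  calc x * x = x * x⁻¹ := by rw [← h]
    _ = 1 := by group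

/-- The elements `ρ` of one coset of `T_b` are determined by `k`. -/
theorem exc_coset (h : Hm K a b c e p) {r u : G} (hr : Mi K b a r) (hu : u ∈ TA K b a)
    (hk : exck e (u * r) = exck e r) : u = 1 := by
  have hf := h.mc.fr
  have heF : e ∈ Fx K b a := by
    rw [Fr.fx_swap]
    exact h.pe.1
  have hU : e⁻¹ * u * e ∈ TA K b a := ta_fx hf.swap heF hu
  have hR : Mi K b a (e⁻¹ * r * e) := mi_conj hf.swap heF hr
  have c1 := ta_mi_comm hf.swap hu hr
  have c2 := ta_mi_comm hf.swap hU hr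
  have c3 := ta_mi_comm hf.swap hu hR
  have c4 := ta_mi_comm hf.swap hU hR
  have c5 := ta_comm hf.swap hU hu
  have huK : u ∈ K := ta_leK hf.swap hu
  have hUK : e⁻¹ * u * e ∈ K := ta_leK hf.swap hU
  have h1 : exck e (u * r) = u * (e⁻¹ * u * e) * (e⁻¹ * u * e) * u * exck e r := by
    have e1 : exck e (u * r) = u * r * ((e⁻¹ * u * e) * (e⁻¹ * r * e) *
        ((e⁻¹ * u * e) * (e⁻¹ * r * e))) * (u * r) := by
      unfold exck
      group
    have e2 : exck e r = r * ((e⁻¹ * r * e) * (e⁻¹ * r * e)) * r := by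
      unfold exck
      group
    rw [e1, e2]
    exact exc_calc c1.symm c2.symm c3.symm c4.symm
  have h2 : u * (e⁻¹ * u * e) * (e⁻¹ * u * e) * u = 1 := by
    rw [h1] at hk
    calc u * (e⁻¹ * u * e) * (e⁻¹ * u * e) * u =
        (u * (e⁻¹ * u * e) * (e⁻¹ * u * e) * u * exck e r) * (exck e r)⁻¹ := by group
      _ = 1 := by rw [hk]; group
  have h3 : (u * (e⁻¹ * u * e)) * (u * (e⁻¹ * u * e)) = 1 := by
    calc (u * (e⁻¹ * u * e)) * (u * (e⁻¹ * u * e)) =
        (u * (e⁻¹ * u * e)) * ((e⁻¹ * u * e) * u) := by rw [c5]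
      _ = u * (e⁻¹ * u * e) * (e⁻¹ * u * e) * u := by group
      _ = 1 := h2
  have h4 := exc_one (hf.odd _ (K.mul_mem huK hUK)) h3
  refine exc_inv (e := e) (hf.odd u huK) (hf.odd e (mem_Fx.1 heF).1) ?_
  calc e⁻¹ * u * e = u⁻¹ * (u * (e⁻¹ * u * e)) := by group
    _ = u⁻¹ := by rw [h4, mul_one]

/-- Finitely many `ρ` give an element `k` which commutes with `e`. -/
theorem exc_fin (h : Hm K a b c e p) :
    {r | Mi K b a r ∧ exck e r * e = e * exck e r}.Finite := by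
  classical
  have hf := h.mc.fr
  have heb : e ∈ Cz K b := fx_czb h.pe.1
  have hind : (TA K b a).relIndex (Cz K b) ≠ 0 := ta_ind hf.swap h.tb.swap
  obtain ⟨R, -, hR⟩ := cover_of_relIndex hind
  have hrep : ∀ g : G, ∃ r : G, g ∈ Cz K b → r ∈ R ∧ g * r⁻¹ ∈ TA K b a := by
    intro g
    by_cases hg : g ∈ Cz K b
    · obtain ⟨r, h1, h2⟩ := hR g hg
      exact ⟨r, fun _ => ⟨h1, h2⟩⟩
    · exact ⟨1, fun hg' => absurd hg' hg⟩
  choose q hq using hrep
  refine Set.Finite.of_finite_image (f := fun r => (q r, exck e r)) ?_ ?_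
  · refine ((R.finite_toSet).prod h.fb).subset ?_
    rintro _ ⟨r, ⟨hr, hk⟩, rfl⟩
    refine ⟨(hq r hr.1).1, ?_, hk⟩
    unfold exck
    exact (Cz K b).mul_mem ((Cz K b).mul_mem hr.1 ((Cz K b).mul_mem ((Cz K b).mul_mem
      ((Cz K b).inv_mem heb) ((Cz K b).mul_mem hr.1 hr.1)) heb)) hr.1
  · rintro r ⟨hr, -⟩ r' ⟨hr', -⟩ hrr
    obtain ⟨h1, h2⟩ := Prod.mk.inj hrr
    have h3 := (hq r hr.1).2
    have h4 := (hq r' hr'.1).2
    rw [← h1] at h4
    have h5 : r' * r⁻¹ ∈ TA K b a := by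
      have := (TA K b a).mul_mem h4 ((TA K b a).inv_mem h3)
      have e1 : r' * (q r)⁻¹ * (r * (q r)⁻¹)⁻¹ = r' * r⁻¹ := by group
      rwa [e1] at this
    have h6 : r' * r⁻¹ * r = r' := by group
    have h7 := exc_coset h hr h5 (by rw [h6]; exact h2.symm)
    calc r = 1 * r := by group
      _ = r' * r⁻¹ * r := by rw [h7]
      _ = r' := h6

/-- Row EXC. -/
theorem exc (inj : InjS.{u}) : ExcS.{u} := by
  classical
  intro G _ K a b c e p h α hα
  have hf := h.mc.fr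
  set S := {m | m ∈ TA K b a ∧ ∃ ρ w : G, Mi K b a ρ ∧ w ∈ K ∧ b * w * b = w⁻¹ ∧
    α * (m * m) * α⁻¹ = ρ * ρ * w ∧
    ∀ f ∈ Fx K a b, f * (ρ * (e⁻¹ * (ρ * ρ) * e) * ρ) = (ρ * (e⁻¹ * (ρ * ρ) * e) * ρ) * f} with hS
  have hch : ∀ m : G, ∃ ρ w : G, m ∈ S → Mi K b a ρ ∧ w ∈ K ∧ b * w * b = w⁻¹ ∧
      α * (m * m) * α⁻¹ = ρ * ρ * w ∧ ∀ f ∈ Fx K a b,
        f * (ρ * (e⁻¹ * (ρ * ρ) * e) * ρ) = (ρ * (e⁻¹ * (ρ * ρ) * e) * ρ) * f := by
    intro m
    by_cases hm : m ∈ S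
    · obtain ⟨-, ρ, w, h1⟩ := hm
      exact ⟨ρ, w, fun _ => h1⟩
    · exact ⟨1, 1, fun hm' => absurd hm' hm⟩
  choose ρ w hch using hch
  refine Set.Finite.of_finite_image (f := ρ) ((exc_fin h).subset ?_) ?_
  · rintro _ ⟨m, hm, rfl⟩
    obtain ⟨h1, -, -, -, h5⟩ := hch m hm
    exact ⟨h1, (h5 e h.pe.1).symm⟩
  · intro m hm m' hm' hmm
    obtain ⟨h1, h2, h3, h4, -⟩ := hch m hm
    obtain ⟨j1, j2, j3, j4, -⟩ := hch m' hm'
    rw [← hmm] at j4
    exact inj G K a b c hf α m m' (ρ m) (w m) (w m') hα (ta_mi hf.swap hm.1)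
      (ta_mi hf.swap hm'.1) h1 h2 h3 j2 j3 h4 j4

end Pool.Agent.FourGp.FF.Hw
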