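import Pool.Agent.Lib.MP_fb3619_al.HW.Base
import Pool.Agent.Lib.MP_fb3619_al.WT.Nne
import Pool.Agent.Lib.MP_fb3619_al.BS.Main
import Pool.Agent.Lib.MP_fb3619_al.PQ.Tam

/-!
# MP_fb3619_al, board HW, row FXT (paper 5): `e` has no fixed point in `T_b` and in `T_c`
-/

set_option autoImplicit false

universe u

namespace Pool.Agent.FourGp.FF.Hw

open Pool.Agent.FourGp.H47 (Odd' inv_of_sq conj_inv_pow mul_inv_self odd_conj comm_of_inv
  mul_inv_self' comm_pow comm_inv conj_comm comm_conj)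
open Pool.Agent.FourGp.H99 (LF)
open Pool.Agent.FourGp.FF.Abo
open Pool.Agent.FourGp.FF.Pq (TA mem_TA)
open Pool.Agent.FourGp.FF.Bs (MinC Min0 HerS CkS CmsS)
open Pool.Agent.FourGp.FF.Fi (cjg Tm AT Fam)
open Pool.Agent.FourGp.FF.Fp

/-- A finitely generated locally finite subgroup is finite. -/
theorem fin_of_lf {G : Type u} [Group G] {N : Subgroup G} (hN : LF N) (hfg : N.FG) :
    (N : Set G).Finite := by
  have h1 : Group.FG N := (Group.fg_iff_subgroup_fg N).2 hfg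
  have h2 : Finite (⊤ : Subgroup N) := hN ⊤ (Group.fg_def.1 h1)
  have h3 : Finite N := Finite.of_equiv _ (Subgroup.topEquiv (G := N)).toEquiv
  exact Set.toFinite _

section

variable {G : Type u} [Group G] {K : Subgroup G} {a b c e : G} {p : ℕ}

/-- The subgroup `N(e)` is finite and normalised by `C_K(a)`. -/
theorem fxt_fi (h : Hm K a b c e p) : ∀ n ∈ Wt.Ne K a b c e, fi (Cz K a) n := by
  have hf := h.mc.fr
  have hNJ : Wt.Ne K a b c e ≤ K ⊓ Subgroup.centralizer {e} := by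
    unfold Wt.Ne
    rw [Subgroup.closure_le]
    rintro u ⟨hu, hue⟩
    refine Subgroup.mem_inf.2 ⟨?_, ?_⟩
    · rcases hu with hu | hu
      · exact (mem_Cz.1 hu.1).1
      · exact (mem_Cz.1 hu.1).1
    · exact Subgroup.mem_centralizer_singleton_iff.2 hue
  have hLF := LF_mono hNJ ((Bs.ck' G K a b c h.mc.toMin0).1 e h.pe.1 h.ne)
  have hFG : (Wt.Ne K a b c e).FG := by
    have hfin : {u | (Mi K b a u ∨ Mi K c a u) ∧ u * e = e * u}.Finite := by
      refine (h.fb.union h.fc).subset ?_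
      rintro u ⟨hu | hu, hue⟩
      · exact Or.inl ⟨hu.1, hue⟩
      · exact Or.inr ⟨hu.1, hue⟩
    exact (Subgroup.fg_iff _).2 ⟨_, rfl, hfin⟩
  have hfin := fin_of_lf hLF hFG
  -- `F` normalises
  have hF : ∀ w ∈ Fx K a b, ∀ n ∈ Wt.Ne K a b c e, w⁻¹ * n * w ∈ Wt.Ne K a b c e := by
    intro w hw n hn
    have hwe : w * e * w⁻¹ ∈ Subgroup.zpowers e := by
      have := h.nor w⁻¹ ((Fx K a b).inv_mem hw)
      rwa [inv_inv] at this
    obtain ⟨i, hi⟩ := Subgroup.mem_zpowers_iff.1 hwe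
    have hn' : n ∈ Subgroup.closure {u | (Mi K b a u ∨ Mi K c a u) ∧ u * e = e * u} := hn
    refine Subgroup.closure_induction (p := fun n _ => w⁻¹ * n * w ∈ Wt.Ne K a b c e)
      ?_ ?_ ?_ ?_ hn'
    · rintro u ⟨hu, hue⟩
      refine Subgroup.subset_closure ⟨?_, ?_⟩
      · rcases hu with hu | hu
        · exact Or.inl (mi_conj hf.swap (by rw [Fr.fx_swap]; exact hw) hu)
        · exact Or.inr (mi_conj hf.rot.rot (by rw [fx_ca hf]; exact hw) hu)
      · have c1 : Commute u e := hue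
        have c2 : Commute u (w * e * w⁻¹) := by rw [← hi]; exact c1.zpow_right i
        have e1 : u * (w * e * w⁻¹) = (w * e * w⁻¹) * u := c2
        calc w⁻¹ * u * w * e = w⁻¹ * (u * (w * e * w⁻¹)) * w := by group
          _ = w⁻¹ * ((w * e * w⁻¹) * u) * w := by rw [e1]
          _ = e * (w⁻¹ * u * w) := by group
    · rw [mul_one, inv_mul_cancel]; exact Subgroup.one_mem _
    · intro x y _ _ hx hy
      have e1 : w⁻¹ * (x * y) * w = (w⁻¹ * x * w) * (w⁻¹ * y * w) := by group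
      rw [e1]
      exact Subgroup.mul_mem _ hx hy
    · intro x _ hx
      have e1 : w⁻¹ * x⁻¹ * w = (w⁻¹ * x * w)⁻¹ := by group
      rw [e1]
      exact Subgroup.inv_mem _ hx
  intro n hn
  refine Fct.fi_of_fin (hfin.subset ?_)
  rintro x ⟨d, hd, rfl⟩
  obtain ⟨w, s, hw, hs, e1, hwb, hsb⟩ := hf.dec (X := Cz K a) cz_le hf.bb
    (fun u hu => hf.cz_inv hf.bb hf.cab.symm hu) hd
  have hwF : w ∈ Fx K a b := mem_Fx.2 ⟨(mem_Cz.1 hw).1, (mem_Cz.1 hw).2, hwb⟩
  have hse : s * e = e * s := (h.pe.2 s ⟨hs, hsb⟩).symm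
  have h1 := hF w hwF n hn
  have h2 := (Wt.nne G K a b c hf e h.pe.1).2 s (mem_Cz.1 hs).1 hse _ h1
  have e2 : d⁻¹ * n * d = s⁻¹ * (w⁻¹ * n * w) * s := by rw [e1]; group
  change d⁻¹ * n * d ∈ (Wt.Ne K a b c e : Set G)
  rw [e2]
  exact h2

theorem fxt_b (h : Hm K a b c e p) : ∀ t ∈ TA K b a, t * e = e * t → t = 1 := by
  intro t ht hte
  have hf := h.mc.fr
  have h1 : t ∈ Wt.Ne K a b c e :=
    Subgroup.subset_closure ⟨Or.inl (ta_mi hf.swap ht), hte⟩
  have h2 := fxt_fi h t h1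
  have h3 : t ∈ TA K b c := by rw [← ta_swap hf.swap]; exact ht
  exact Pq.thc G K b c a hf.rot (by rw [hf.fx_rot]; exact h.mc.fin) (h.mc.nolf.rot hf) t h3 h2

end

/-- Row FXT. -/
theorem fxt : FxtS.{u} := by
  intro G _ K a b c e p h
  refine ⟨fxt_b h, fun t ht => ?_⟩
  exact fxt_b h.sw t ht

end Pool.Agent.FourGp.FF.Hw
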