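import Pool.Agent.Lib.MP_fb3619_al.V.Iface
import Pool.Agent.Lib.MP_fb3619_al.FP.Iface2

/-!
# MP_fb3619_al, board HW: exactly one wild type (THEOREM H, wild part). Statements of the rows.
Paper: `HW/Paper.md`.
-/

set_option autoImplicit false

universe u

namespace Pool.Agent.FourGp.FF.Hw

open Pool.Agent.FourGp.H47 (Odd' inv_of_sq conj_inv_pow mul_inv_self odd_conj comm_of_inv
  mul_inv_self' comm_pow comm_inv conj_comm comm_conj)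
open Pool.Agent.FourGp.H99 (LF)
open Pool.Agent.FourGp.FF.Abo
open Pool.Agent.FourGp.FF.Pq (TA mem_TA)
open Pool.Agent.FourGp.FF.Bs (MinC Min0 HerS CkS CmsS)
open Pool.Agent.FourGp.FF.Fi (cjg Tm AT Fam)

/-- The situation of the board: `b`, `c` tame; `e` in `P_a` of prime order `p`, `⟨e⟩` normal in
`F`, with finitely many fixed points in `C_K(b)` and in `C_K(c)`. -/
structure Hm {G : Type u} [Group G] (K : Subgroup G) (a b c e : G) (p : ℕ) : Prop where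
  mc : MinC K a b c
  tb : Tm K a b c b
  tc : Tm K a b c c
  pe : Wt.Pv K a b e
  ne : e ≠ 1
  pp : p.Prime
  ep : e ^ p = 1
  nor : ∀ f ∈ Fx K a b, f⁻¹ * e * f ∈ Subgroup.zpowers e
  fb : {x | x ∈ Cz K b ∧ x * e = e * x}.Finite
  fc : {x | x ∈ Cz K c ∧ x * e = e * x}.Finite

/-- EX (paper 0): existence. Input `Wt.XweS`, `Wt.XwtS`, `Wt.CycS`, `Wt.QS`. -/
def ExS : Prop := ∀ (G : Type u) [Group G] (K : Subgroup G) (a b c : G), MinC K a b c →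
  ¬ Tm K a b c a → Tm K a b c b → Tm K a b c c → ∃ (e : G) (p : ℕ), Hm K a b c e p

/-- LU (paper 1), LEMMA U. -/
def LuS : Prop := ∀ (G : Type u) [Group G] (K : Subgroup G) (a b c : G), MinC K a b c →
  Tm K a b c c →
  {x | x ∈ Cz K a ∧ fi (Cz K b) x}.Finite ∧ {x | x ∈ Cz K c ∧ fi (Cz K b) x}.Finite ∧
  LF (K ⊓ HD (Cz K b) : Subgroup G) ∧ (Cz K b).relIndex (K ⊓ HD (Cz K b)) ≠ 0

/-- DIC (paper 2). Input `LuS` and `Fp.LmvS` (proved, `FP/Lmv.lean`). -/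
def DicS : Prop := ∀ (G : Type u) [Group G] (K : Subgroup G) (a b c : G), MinC K a b c →
  Tm K a b c b → Tm K a b c c → ∀ L : Subgroup G, L ≤ K → VInv a b L → LF L →
  L.relIndex (Cz K b) ≠ 0 →
  ({x | x ∈ L ∧ x ∈ Cz K c}.Finite ↔ {x | x ∈ L ∧ x ∈ Cz K a}.Finite) ∧
  ({x | x ∈ L ∧ x ∈ Cz K c}.Finite → (Cz K b).relIndex L ≠ 0)

/-- RL (paper 3). Input `LuS`, `Fp.YlS`, `Fp.FlatS`. -/
def RlS : Prop := ∀ (G : Type u) [Group G] (K : Subgroup G) (a b c e : G) (p : ℕ),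
  Hm K a b c e p → ∀ L : Subgroup G, L ≤ K → VInv a b L → LF L →
  (∀ l ∈ L, e⁻¹ * l * e ∈ L) → L.relIndex (Cz K b) ≠ 0 → {x | x ∈ L ∧ x ∈ Cz K c}.Finite

/-- CKK (paper 4). Input `DicS`, `RlS`, `CkS`. -/
def CkkS : Prop := ∀ (G : Type u) [Group G] (K : Subgroup G) (a b c e : G) (p : ℕ),
  Hm K a b c e p → ∀ k, Mi K b a k → (∃ f ∈ Fx K a b, f * k ≠ k * f) →
  (Cz K b).relIndex (K ⊓ Subgroup.centralizer {k} : Subgroup G) ≠ 0

/-- FXT (paper 5). Input `Wt.NneS` (proved), `CkS`, `thc`. -/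
def FxtS : Prop := ∀ (G : Type u) [Group G] (K : Subgroup G) (a b c e : G) (p : ℕ),
  Hm K a b c e p → (∀ t ∈ TA K b a, t * e = e * t → t = 1) ∧
  (∀ t ∈ TA K c a, t * e = e * t → t = 1)

/-- DEC (paper 6): the decomposition of `α m² α⁻¹`. -/
def DecS : Prop := ∀ (G : Type u) [Group G] (K : Subgroup G) (a b c : G), Fr K a b c →
  ∀ α m, Mi K a b α → Mi K b a m → ∃ ρ w : G, Mi K b a ρ ∧ w ∈ K ∧ b * w * b = w⁻¹ ∧
    α * (m * m) * α⁻¹ = ρ * ρ * w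

/-- CHO (paper 6): the chord. -/
def ChoS : Prop := ∀ (G : Type u) [Group G] (K : Subgroup G) (a b c e : G), Fr K a b c →
  Wt.Pv K a b e → ∀ α m ρ w n k : G, Mi K a b α → Mi K b a m →
  m * (e⁻¹ * m * e) = (e⁻¹ * m * e) * m →
  Mi K b a ρ → w ∈ K → b * w * b = w⁻¹ → α * (m * m) * α⁻¹ = ρ * ρ * w →
  n = α * (m⁻¹ * (e⁻¹ * m * e)) * α⁻¹ → k = ρ * (e⁻¹ * (ρ * ρ) * e) * ρ →
  Mi K b a k ∧ ∀ t ∈ TA K b a, (ρ⁻¹ * (n⁻¹ * t * n) * ρ) * k = k * (ρ⁻¹ * (n⁻¹ * t * n) * ρ)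

/-- INJ (paper 7): `σ = ρ²` determines `m`. -/
def InjS : Prop := ∀ (G : Type u) [Group G] (K : Subgroup G) (a b c : G), Fr K a b c →
  ∀ α m m' ρ w w' : G, Mi K a b α → Mi K b a m → Mi K b a m' → Mi K b a ρ →
  w ∈ K → b * w * b = w⁻¹ → w' ∈ K → b * w' * b = w'⁻¹ →
  α * (m * m) * α⁻¹ = ρ * ρ * w → α * (m' * m') * α⁻¹ = ρ * ρ * w' → m = m'

/-- EXC (paper 7): for almost all `m` the element `k` is moved by `F`. Input `InjS`. -/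
def ExcS : Prop := ∀ (G : Type u) [Group G] (K : Subgroup G) (a b c e : G) (p : ℕ),
  Hm K a b c e p → ∀ α, Mi K a b α →
  {m | m ∈ TA K b a ∧ ∃ ρ w : G, Mi K b a ρ ∧ w ∈ K ∧ b * w * b = w⁻¹ ∧
    α * (m * m) * α⁻¹ = ρ * ρ * w ∧
    ∀ f ∈ Fx K a b, f * (ρ * (e⁻¹ * (ρ * ρ) * e) * ρ) = (ρ * (e⁻¹ * (ρ * ρ) * e) * ρ) * f}.Finite

/-- SUB (paper 8). Input `CkkS`, `DecS`, `ChoS`, `ExcS`, `RvS`. -/
def SubS : Prop := ∀ (G : Type u) [Group G] (K : Subgroup G) (a b c e : G) (p : ℕ),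
  Hm K a b c e p → ∀ α, Mi K a b α → ∀ m ∈ TA K b a,
  ∃ f ∈ Fx K a b, fi (Cz K b) (f⁻¹ * (α * (m⁻¹ * (e⁻¹ * m * e)) * α⁻¹))

/-- NRM (paper 9): every element of `T_b` is `m⁻¹ m^e`. Input `FxtS`. -/
def NrmS : Prop := ∀ (G : Type u) [Group G] (K : Subgroup G) (a b c e : G) (p : ℕ),
  Hm K a b c e p → ∀ t ∈ TA K b a, ∃ m ∈ TA K b a, t = m⁻¹ * (e⁻¹ * m * e)

/-- END (paper 9). Input `LuS`, `NrmS`, `SubS`, `RvS`. -/
def EndS : Prop := ∀ (G : Type u) [Group G] (K : Subgroup G) (a b c e : G) (p : ℕ),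
  ¬ Hm K a b c e p

/-- The wild part of THEOREM H. -/
theorem hw (hE : ExS.{u}) (hN : EndS.{u}) : Vt.HwS.{u} := by
  intro G _ K a b c m ha hb hc
  obtain ⟨e, p, h⟩ := hE G K a b c m ha hb hc
  exact hN G K a b c e p h

end Pool.Agent.FourGp.FF.Hw
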