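import Pool.Agent.Lib.MP_fb3619_al.HW.Base
import Pool.Agent.Lib.MP_fb3619_al.FF.Cnt

/-!
# MP_fb3619_al, board HW, row INJ (paper 7)
-/

set_option autoImplicit false

universe u

namespace Pool.Agent.FourGp.FF.Hw

open Pool.Agent.FourGp.H47 (Odd' inv_of_sq conj_inv_pow mul_inv_self odd_conj comm_of_inv
  mul_inv_self' comm_pow comm_inv conj_comm comm_conj)

/-- `a u` is the involution of type `a` which commutes with `α b α⁻¹` and with `c ρ²`. -/
theorem inj_key {G : Type u} [Group G] {K : Subgroup G} {a b c : G} (h : Fr K a b c)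
    {α m ρ w : G} (hα : Mi K a b α) (hm : Mi K b a m) (hρ : Mi K b a ρ)
    (hwb : b * w * b = w⁻¹) (e : α * (m * m) * α⁻¹ = ρ * ρ * w) :
    Ty K a (a * (α * (m * m) * α⁻¹)) ∧
    (a * (α * (m * m) * α⁻¹)) * (α * b * α⁻¹) = (α * b * α⁻¹) * (a * (α * (m * m) * α⁻¹)) ∧
    (a * (α * (m * m) * α⁻¹)) * (c * (ρ * ρ)) = (c * (ρ * ρ)) * (a * (α * (m * m) * α⁻¹)) := by
  have hαK : α ∈ K := (mem_Cz.1 hα.1).1
  have hαa : α * a = a * α := (mem_Cz.1 hα.1).2
  have hmK : m ∈ K := (mem_Cz.1 hm.1).1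
  have hmb : m * b = b * m := (mem_Cz.1 hm.1).2
  have hρb : ρ * b = b * ρ := (mem_Cz.1 hρ.1).2
  have hmma : a * (m * m) * a = (m * m)⁻¹ := by
    calc a * (m * m) * a = (a * m * a) * (a * a)⁻¹ * (a * m * a) := by group
      _ = (m * m)⁻¹ := by rw [h.aa, hm.2]; group
  have hty : Ty K a (a * (m * m)) := h.ty_inv h.ty_a (K.mul_mem hmK hmK) hmma
  have e1 : a * (α * (m * m) * α⁻¹) = α * (a * (m * m)) * α⁻¹ := by
    calc a * (α * (m * m) * α⁻¹) = (a * α) * (m * m) * α⁻¹ := by group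
      _ = (α * a) * (m * m) * α⁻¹ := by rw [hαa]
      _ = _ := by group
  have hT : Ty K a (a * (α * (m * m) * α⁻¹)) := by
    rw [e1]
    have := h.ty_conj hty (K.inv_mem hαK)
    rwa [inv_inv] at this
  refine ⟨hT, ?_, ?_⟩
  · rw [e1]
    have c1 : Commute a b := h.cab
    have c2 : Commute m b := hmb
    have c3 : (a * (m * m)) * b = b * (a * (m * m)) := (c1.mul_left (c2.mul_left c2)).eq
    calc α * (a * (m * m)) * α⁻¹ * (α * b * α⁻¹) = α * ((a * (m * m)) * b) * α⁻¹ := by group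
      _ = α * (b * (a * (m * m))) * α⁻¹ := by rw [c3]
      _ = _ := by group
  · -- `a u = (c σ) (b w)`
    have hρc : c * ρ * c = ρ⁻¹ := ((Fp.mi_c h.swap).1 hρ).2
    have hσc : c * (ρ * ρ) * c = (ρ * ρ)⁻¹ := by
      calc c * (ρ * ρ) * c = (c * ρ * c) * (c * c)⁻¹ * (c * ρ * c) := by group
        _ = (ρ * ρ)⁻¹ := by rw [h.cc, hρc]; group
    set y := c * (ρ * ρ) with hy
    set z := b * w with hz
    have hyy : y * y = 1 := by
      calc y * y = (c * (ρ * ρ) * c) * (ρ * ρ) := by rw [hy]; group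
        _ = 1 := by rw [hσc]; group
    have hzz : z * z = 1 := by
      calc z * z = (b * w * b) * w := by rw [hz]; group
        _ = 1 := by rw [hwb]; group
    have e2 : a * (α * (m * m) * α⁻¹) = y * z := by
      have c2 : Commute ρ b := hρb
      have c3 : (ρ * ρ) * b = b * (ρ * ρ) := (c2.mul_left c2).eq
      rw [e, hy, hz]
      calc a * (ρ * ρ * w) = (c * b) * (ρ * ρ) * w := by rw [h.cb]; group
        _ = c * (b * (ρ * ρ)) * w := by group
        _ = c * ((ρ * ρ) * b) * w := by rw [c3]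
        _ = _ := by group
    rw [e2]
    have hxx := hT.1
    rw [e2] at hxx
    have e3 : y * z = z * y := by
      have h1 : y * z = (y * z)⁻¹ := by rw [inv_of_sq hxx]
      rw [h1, mul_inv_rev, inv_of_sq hyy, inv_of_sq hzz]
    calc y * z * y = z * y * y := by rw [e3]
      _ = z := by rw [mul_assoc, hyy, mul_one]
      _ = y * (y * z) := by rw [← mul_assoc, hyy, one_mul]

theorem inj : InjS.{u} := by
  intro G _ K a b c h α m m' ρ w w' hα hm hm' hρ hw hwb hw' hwb' e e'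
  obtain ⟨t1, c1, d1⟩ := inj_key h hα hm hρ hwb e
  obtain ⟨t2, c2, d2⟩ := inj_key h hα hm' hρ hwb' e'
  have hαK : α ∈ K := (mem_Cz.1 hα.1).1
  have hmK : m ∈ K := (mem_Cz.1 hm.1).1
  have hmK' : m' ∈ K := (mem_Cz.1 hm'.1).1
  have hx : Ty K b (α * b * α⁻¹) := by
    have := h.rot.ty_conj h.rot.ty_a (K.inv_mem hαK)
    rwa [inv_inv] at this
  have hρK : ρ ∈ K := (mem_Cz.1 hρ.1).1
  have hy : Ty K c (c * (ρ * ρ)) := by
    refine h.rot.rot.ty_inv h.rot.rot.ty_a (K.mul_mem hρK hρK) ?_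
    have hρc : c * ρ * c = ρ⁻¹ := ((Fp.mi_c h.swap).1 hρ).2
    calc c * (ρ * ρ) * c = (c * ρ * c) * (c * c)⁻¹ * (c * ρ * c) := by group
      _ = (ρ * ρ)⁻¹ := by rw [h.cc, hρc]; group
  obtain ⟨k, hk, -, -⟩ := h.rot.perp hx hy
  have key : ∀ t, Ty K a t → t * (α * b * α⁻¹) = (α * b * α⁻¹) * t →
      t * (c * (ρ * ρ)) = (c * (ρ * ρ)) * t → t = (α * b * α⁻¹ * (c * (ρ * ρ))) ^ k := by
    intro t ht h1 h2
    refine h.ty_eq ht hk ?_
    have q1 : Commute t (α * b * α⁻¹) := h1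
    have q2 : Commute t (c * (ρ * ρ)) := h2
    exact ((q1.mul_right q2).pow_right k).eq
  have e3 := (key _ t1 c1 d1).trans (key _ t2 c2 d2).symm
  have e4 : m * m = m' * m' := by
    have e5 := mul_left_cancel e3
    have e6 := mul_right_cancel e5
    exact mul_left_cancel e6
  exact Cnt.sq_uniq h hmK hmK' e4

end Pool.Agent.FourGp.FF.Hw
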