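import Pool.Agent.Lib.MP_fb3619_al.HW.Base
import Pool.Agent.Lib.MP_fb3619_al.H71.Hu

/-!
# MP_fb3619_al, board HW, row LU (paper 1): LEMMA U
-/

set_option autoImplicit false

universe u

namespace Pool.Agent.FourGp.FF.Hw

open Pool.Agent.FourGp.FF.Bs (MinC)
open Pool.Agent.FourGp.FF.Fp

theorem lu : LuS.{u} := by
  intro G _ K a b c m tc
  have h := m.fr
  have u1 : {x | x ∈ Cz K c ∧ fi (Cz K b) x}.Finite :=
    Hz.hu1 h.rot (by rw [h.fx_rot]; exact m.fin) (m.nolf.rot h) (hdf_ind h.rot tc.rot)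
  exact ⟨Hz.hu2 m u1, u1, Hz.Zh_lf m u1, Hz.Zh_ind m u1⟩

end Pool.Agent.FourGp.FF.Hw
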