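import Pool.Agent.Lib.MP_fb3619_al.HW.Base
import Pool.Agent.Lib.MP_fb3619_al.QQ.Si

/-!
# MP_fb3619_al, board HW: row NRM
-/

set_option autoImplicit false

universe u

namespace Pool.Agent.FourGp.FF.Hw

open Pool.Agent.FourGp.H47 (Odd' inv_of_sq conj_inv_pow mul_inv_self odd_conj comm_of_inv
  mul_inv_self' comm_pow comm_inv conj_comm comm_conj)
open Pool.Agent.FourGp.H99 (LF)
open Pool.Agent.FourGp.FF.Abo
open Pool.Agent.FourGp.FF.Pq (TA mem_TA)
open Pool.Agent.FourGp.FF.Bs (MinC Min0 HerS CkS CmsS)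
open Pool.Agent.FourGp.FF.Fi (cjg Tm AT Fam)
open Pool.Agent.FourGp.FF.Fp

/-- NRM: an injective endomorphism of a finite abelian group is surjective. -/
theorem nrm (fxt : FxtS.{u}) : NrmS.{u} := by
  intro G _ K a b c e p h t ht
  have hf := h.mc.fr
  have hf' := hf.swap
  have heF : e ∈ Fx K b a := by rw [Fr.fx_swap]; exact h.pe.1
  have hT1 : ∀ x ∈ TA K b a, e⁻¹ * x * e ∈ TA K b a := fun x hx => ta_fx hf' heF hx
  have hpow : ∀ i : ℕ, ∀ x ∈ TA K b a, (e ^ i)⁻¹ * x * e ^ i ∈ TA K b a := fun i x hx =>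
    ta_fx hf' ((Fx K b a).pow_mem heF i) hx
  obtain ⟨S, hS⟩ : ∃ S : Set G, S = {x | ∃ i : ℕ, x = (e ^ i)⁻¹ * t * e ^ i} := ⟨_, rfl⟩
  have hSm : ∀ i : ℕ, (e ^ i)⁻¹ * t * e ^ i ∈ S := fun i => by rw [hS]; exact ⟨i, rfl⟩
  have hST : S ⊆ TA K b a := by
    rw [hS]
    rintro x ⟨i, rfl⟩
    exact hpow i t ht
  have hSf : S.Finite := by
    have h1 : S ⊆ (fun i : ℕ => (e ^ i)⁻¹ * t * e ^ i) '' Set.Iio p := by
      rw [hS]
      rintro x ⟨i, rfl⟩
      refine ⟨i % p, Nat.mod_lt _ h.pp.pos, ?_⟩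
      have h2 : e ^ (i % p) = e ^ i := by
        conv_rhs => rw [← Nat.div_add_mod i p, pow_add, pow_mul, h.ep, one_pow, one_mul]
      show (e ^ (i % p))⁻¹ * t * e ^ (i % p) = _
      rw [h2]
    exact ((Set.finite_Iio p).image _).subset h1
  have hLF : LF (Cz K b) := Qt.si_lf hf h.mc.fin
  have hfin : Finite (Subgroup.closure S) :=
    Qt.si_fin hLF hSf fun x hx => ta_le hf' (hST hx)
  have hCT : Subgroup.closure S ≤ TA K b a := (Subgroup.closure_le _).2 hST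
  have hCe : ∀ x ∈ Subgroup.closure S, e⁻¹ * x * e ∈ Subgroup.closure S := by
    intro x hx
    refine Subgroup.closure_induction (p := fun x _ => e⁻¹ * x * e ∈ Subgroup.closure S)
      ?_ ?_ ?_ ?_ hx
    · intro x hx
      rw [hS] at hx
      obtain ⟨i, rfl⟩ := hx
      have e1 : e⁻¹ * ((e ^ i)⁻¹ * t * e ^ i) * e = (e ^ (i + 1))⁻¹ * t * e ^ (i + 1) := by
        rw [pow_succ]; group
      rw [e1]
      exact Subgroup.subset_closure (hSm _)
    · rw [mul_one, inv_mul_cancel]; exact Subgroup.one_mem _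
    · intro x y _ _ hx hy
      have e1 : e⁻¹ * (x * y) * e = (e⁻¹ * x * e) * (e⁻¹ * y * e) := by group
      rw [e1]; exact Subgroup.mul_mem _ hx hy
    · intro x _ hx
      have e1 : e⁻¹ * x⁻¹ * e = (e⁻¹ * x * e)⁻¹ := by group
      rw [e1]; exact Subgroup.inv_mem _ hx
  have hab : ∀ x ∈ TA K b a, ∀ y ∈ TA K b a, x * y = y * x := fun x hx y hy =>
    ta_comm hf' hx hy
  have hmem : ∀ x : Subgroup.closure S, (x : G)⁻¹ * (e⁻¹ * x * e) ∈ Subgroup.closure S :=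
    fun x => Subgroup.mul_mem _ (Subgroup.inv_mem _ x.2) (hCe x x.2)
  have hinj : Function.Injective
      (fun x : Subgroup.closure S => (⟨_, hmem x⟩ : Subgroup.closure S)) := by
    intro x y hxy
    have h1 : (x : G)⁻¹ * (e⁻¹ * x * e) = (y : G)⁻¹ * (e⁻¹ * y * e) := congrArg Subtype.val hxy
    have hx := hCT x.2
    have hy := hCT y.2
    have hxe := hT1 _ hx
    have hye := hT1 _ hy
    have h2 : e⁻¹ * ((x : G) * (y : G)⁻¹) * e = (x : G) * (y : G)⁻¹ := by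
      have c1 : (y : G)⁻¹ * (e⁻¹ * y * e) = (e⁻¹ * y * e) * (y : G)⁻¹ :=
        hab _ ((TA K b a).inv_mem hy) _ hye
      calc e⁻¹ * ((x : G) * (y : G)⁻¹) * e = (x : G) * ((x : G)⁻¹ * (e⁻¹ * x * e)) *
            (e⁻¹ * y * e)⁻¹ := by group
        _ = (x : G) * ((y : G)⁻¹ * (e⁻¹ * y * e)) * (e⁻¹ * y * e)⁻¹ := by rw [h1]
        _ = _ := by group
    have h3 := (fxt G K a b c e p h).1 _ ((TA K b a).mul_mem hx ((TA K b a).inv_mem hy)) (by
      calc (x : G) * (y : G)⁻¹ * e = e * (e⁻¹ * ((x : G) * (y : G)⁻¹) * e) := by group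
        _ = _ := by rw [h2])
    exact Subtype.ext (mul_inv_eq_one.1 h3)
  obtain ⟨m, hm⟩ := (Finite.injective_iff_surjective.1 hinj) ⟨t, Subgroup.subset_closure (by
    have := hSm 0
    simpa using this)⟩
  exact ⟨m, hCT m.2, (congrArg Subtype.val hm).symm⟩

end Pool.Agent.FourGp.FF.Hw
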