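import Pool.Agent.Lib.MP_fb3619_al.HW.Base
import Pool.Agent.Lib.MP_fb3619_al.H71.Hrl
import Pool.Agent.Lib.MP_fb3619_al.H71.Yl
import Pool.Agent.Lib.MP_fb3619_al.H28.FlatF

/-!
# MP_fb3619_al, board HW, row RL (paper 3): the consumer of LEMMA Y
-/

set_option autoImplicit false

universe u

namespace Pool.Agent.FourGp.FF.Hw

open Pool.Agent.FourGp.FF.Bs (MinC)
open Pool.Agent.FourGp.FF.Fp

theorem rl : RlS.{u} := by
  intro G _ K a b c e p h L hLK hLV hLL hLe hLb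
  have f := h.mc.fr
  obtain ⟨heF, heP⟩ := h.pe
  have hc : (Pq.TA K c a).relIndex (Cz K c) ≠ 0 := by
    rw [ta_swap f.rot.rot]
    exact hdf_ind f.rot h.tc.rot
  -- powers of `e`
  have hpow : ∀ z ∈ Subgroup.zpowers e, ∃ n : ℕ, z = e ^ n := by
    intro z hz
    obtain ⟨n, hn⟩ := Subgroup.mem_zpowers_iff.1 hz
    have hp : (0 : ℤ) < p := by exact_mod_cast h.pp.pos
    refine ⟨(n % p).toNat, ?_⟩
    have h1 : ((n % p).toNat : ℤ) = n % p := Int.toNat_of_nonneg (Int.emod_nonneg _ hp.ne')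
    have h2 : e ^ ((n % p).toNat : ℤ) = e ^ n := by
      rw [h1]
      have e1 : n = n % p + p * (n / p) := (Int.emod_add_mul_ediv n p).symm
      have e2 : e ^ (p * (n / p) : ℤ) = 1 := by
        rw [zpow_mul, zpow_natCast, h.ep, one_zpow]
      calc e ^ (n % (p : ℤ)) = e ^ (n % (p : ℤ)) * e ^ ((p : ℤ) * (n / p)) := by rw [e2, mul_one]
        _ = e ^ (n % (p : ℤ) + p * (n / p)) := (zpow_add _ _ _).symm
        _ = e ^ n := by rw [← e1]
    rw [zpow_natCast] at h2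
    rw [h2, hn]
  refine Hz.rl H71.yls Fp.flat h.mc (hdf_ind f h.tb) hc (Z := Subgroup.zpowers e) ?_ ?_ hLK hLV hLL
    ?_ hLb
  · intro z hz
    obtain ⟨n, rfl⟩ := hpow z hz
    refine ⟨(Fx K a b).pow_mem heF n, fun u hu => ?_⟩
    have c1 : Commute e u := heP u hu
    exact (c1.pow_left n).eq
  · refine h.fc.subset ?_
    rintro x ⟨h1, h2⟩
    exact ⟨h1, h2 e (Subgroup.mem_zpowers e)⟩
  · intro z hz
    obtain ⟨n, rfl⟩ := hpow z hz
    clear hz
    induction n with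
    | zero => intro g hg; simpa using hg
    | succ n ih =>
      intro g hg
      have h1 := hLe _ (ih g hg)
      have e1 : (e ^ (n + 1))⁻¹ * g * e ^ (n + 1) = e⁻¹ * ((e ^ n)⁻¹ * g * e ^ n) * e := by
        rw [pow_succ]; group
      rw [e1]
      exact h1

end Pool.Agent.FourGp.FF.Hw
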