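import Pool.Agent.Lib.MP_fb3619_al.HW.Ex
import Pool.Agent.Lib.MP_fb3619_al.HW.Lu
import Pool.Agent.Lib.MP_fb3619_al.HW.Dic
import Pool.Agent.Lib.MP_fb3619_al.HW.Rl
import Pool.Agent.Lib.MP_fb3619_al.HW.Ckk
import Pool.Agent.Lib.MP_fb3619_al.HW.Fxt
import Pool.Agent.Lib.MP_fb3619_al.HW.Dec
import Pool.Agent.Lib.MP_fb3619_al.HW.Cho
import Pool.Agent.Lib.MP_fb3619_al.HW.Inj
import Pool.Agent.Lib.MP_fb3619_al.HW.Exc
import Pool.Agent.Lib.MP_fb3619_al.HW.Sub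
import Pool.Agent.Lib.MP_fb3619_al.HW.Nrm
import Pool.Agent.Lib.MP_fb3619_al.HW.End
import Pool.Agent.Lib.MP_fb3619_al.WT.Main

/-!
# MP_fb3619_al, board HW: assembly
-/

set_option autoImplicit false

universe u

namespace Pool.Agent.FourGp.FF.Hw

theorem dic' : DicS.{u} := dic lu

theorem ckk' : CkkS.{u} := ckk dic' rl

theorem exc' : ExcS.{u} := exc inj

theorem sub' : SubS.{u} := sub ckk' dec cho exc'

theorem nrm' : NrmS.{u} := nrm fxt

theorem end' : EndS.{u} := fin lu nrm' sub'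

/-- The wild part of THEOREM H. -/
theorem hws : Vt.HwS.{u} := hw (ex Wt.xwe Wt.xwt Wt.cyc' Qt.qs) end'

end Pool.Agent.FourGp.FF.Hw
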