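import Pool.Agent.Lib.MP_fb3619_al.HW.Base
import Pool.Agent.Lib.MP_fb3619_al.BS.Rv
import Pool.Agent.Lib.MP_fb3619_al.BS.Gen
import Pool.Agent.Lib.MP_fb3619_al.FP.Hdf
import Pool.Agent.Lib.MP_fb3619_al.FP.Cfi

/-!
# MP_fb3619_al, board HW, row SUB (paper 8)
-/

set_option autoImplicit false

universe u

namespace Pool.Agent.FourGp.FF.Hw

open Pool.Agent.FourGp.H47 (Odd' inv_of_sq conj_inv_pow mul_inv_self odd_conj comm_of_inv
  mul_inv_self' comm_pow comm_inv conj_comm comm_conj)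
open Pool.Agent.FourGp.H99 (LF)
open Pool.Agent.FourGp.FF.Abo
open Pool.Agent.FourGp.FF.Pq (TA mem_TA)
open Pool.Agent.FourGp.FF.Bs (MinC Min0 HerS CkS CmsS)
open Pool.Agent.FourGp.FF.Fi (cjg mem_cjg Tm AT Fam)
open Pool.Agent.FourGp.FF.Fp

theorem sub (ckk : CkkS.{u}) (dec : DecS.{u}) (cho : ChoS.{u}) (exc : ExcS.{u}) : SubS.{u} := by
  intro G _ K a b c e p H α hα m0 hm0
  have h := H.mc.fr
  have hF := H.mc.fin
  have heF : e ∈ Fx K a b := H.pe.1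
  have hbb : e * b = b * e := by
    have := (mem_Fx.1 heF).2
    exact this.2
  have hr : Fr K b c a := h.rot
  have hsw : Fr K b a c := h.swap
  have hFb : Fx K b a = Fx K a b := Fr.fx_swap.symm
  have hTi : (TA K b a).relIndex (Cz K b) ≠ 0 := hdf_ind h H.tb
  -- `T_b` is normalised by `e`
  have hTe : ∀ t ∈ TA K b a, e⁻¹ * t * e ∈ TA K b a := by
    intro t ht
    exact ta_fx hsw (by rw [hFb]; exact heF) ht
  have hTc : ∀ s ∈ TA K b a, ∀ t ∈ TA K b a, s * t = t * s := fun s hs t ht =>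
    ta_comm hsw hs ht
  have hαK : α ∈ K := (mem_Cz.1 hα.1).1
  have heK : e ∈ K := (mem_Fx.1 heF).1
  have hTK : ∀ t ∈ TA K b a, t ∈ K := fun t ht => ta_leK hsw ht
  set D := Cz K b with hD
  set nn : G → G := fun x => α * (x⁻¹ * (e⁻¹ * x * e)) * α⁻¹ with hnn
  -- Step A
  have A : ∀ m ∈ TA K b a, (¬ ∃ ρ w : G, Mi K b a ρ ∧ w ∈ K ∧ b * w * b = w⁻¹ ∧
      α * (m * m) * α⁻¹ = ρ * ρ * w ∧
      ∀ f ∈ Fx K a b, f * (ρ * (e⁻¹ * (ρ * ρ) * e) * ρ) = (ρ * (e⁻¹ * (ρ * ρ) * e) * ρ) * f) →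
      ∃ f ∈ Fx K a b, fi D (f⁻¹ * nn m) := by
    intro m hm hne
    have hmi : Mi K b a m := ta_mi hsw hm
    obtain ⟨ρ, w, hρ, hw, hbw, he⟩ := dec G K a b c h α m hα hmi
    obtain ⟨hk, hcom⟩ := cho G K a b c e h H.pe α m ρ w (nn m)
      (ρ * (e⁻¹ * (ρ * ρ) * e) * ρ) hα hmi (hTc m hm _ (hTe m hm)) hρ hw hbw he rfl rfl
    have hf : ∃ f ∈ Fx K a b, f * (ρ * (e⁻¹ * (ρ * ρ) * e) * ρ)
        ≠ (ρ * (e⁻¹ * (ρ * ρ) * e) * ρ) * f := by
      by_contra hcon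
      push Not at hcon
      exact hne ⟨ρ, w, hρ, hw, hbw, he, hcon⟩
    have hJ := ckk G K a b c e p H _ hk hf
    have hnK : nn m ∈ K := K.mul_mem (K.mul_mem hαK (K.mul_mem (K.inv_mem (hTK m hm))
      (K.mul_mem (K.mul_mem (K.inv_mem heK) (hTK m hm)) heK))) (K.inv_mem hαK)
    have hρK : ρ ∈ K := (mem_Cz.1 hρ.1).1
    have hρb : ρ * b = b * ρ := (mem_Cz.1 hρ.1).2
    -- `T_b ≤ cjg g J`
    have h1 : TA K b a ≤ cjg (nn m * ρ)
        (K ⊓ Subgroup.centralizer {ρ * (e⁻¹ * (ρ * ρ) * e) * ρ} : Subgroup G) := by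
      intro t ht
      rw [mem_cjg]
      have e1 : (nn m * ρ)⁻¹ * t * (nn m * ρ) = ρ⁻¹ * ((nn m)⁻¹ * t * nn m) * ρ := by group
      rw [e1]
      refine ⟨K.mul_mem (K.mul_mem (K.inv_mem hρK) (K.mul_mem (K.mul_mem (K.inv_mem hnK)
        (hTK t ht)) hnK)) hρK, ?_⟩
      exact Subgroup.mem_centralizer_singleton_iff.2 (hcom t ht)
    have h2 : (cjg (nn m * ρ) D).relIndex (cjg (nn m * ρ)
        (K ⊓ Subgroup.centralizer {ρ * (e⁻¹ * (ρ * ρ) * e) * ρ} : Subgroup G)) ≠ 0 := by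
      unfold cjg
      rw [Subgroup.relIndex_comap]
      have e2 : Subgroup.map (MulAut.conj (nn m * ρ)⁻¹).toMonoidHom (Subgroup.comap
          (MulAut.conj (nn m * ρ)⁻¹).toMonoidHom (K ⊓ Subgroup.centralizer
          {ρ * (e⁻¹ * (ρ * ρ) * e) * ρ} : Subgroup G)) = (K ⊓ Subgroup.centralizer
          {ρ * (e⁻¹ * (ρ * ρ) * e) * ρ} : Subgroup G) :=
        Subgroup.map_comap_eq_self_of_surjective (MulAut.conj (nn m * ρ)⁻¹).surjective _
      rw [e2]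
      exact hJ
    have h3 : (cjg (nn m * ρ) D).relIndex (TA K b a) ≠ 0 := by
      intro h0
      exact h2 (Subgroup.relIndex_eq_zero_of_le_right h1 h0)
    have h4 : (cjg (nn m * ρ) D).relIndex D ≠ 0 := Subgroup.relIndex_ne_zero_trans h3 hTi
    have h5 : cjg (nn m * ρ) D = cjg (nn m) D := by
      have h6 := Bs.gen_cjg h hρb
      ext x
      rw [mem_cjg, mem_cjg]
      have e3 : (nn m * ρ)⁻¹ * x * (nn m * ρ) = ρ⁻¹ * ((nn m)⁻¹ * x * nn m) * ρ := by group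
      rw [e3]
      constructor
      · intro hx
        have : (nn m)⁻¹ * x * nn m ∈ cjg ρ (Cz K b) := mem_cjg.2 hx
        rwa [h6] at this
      · intro hx
        have : (nn m)⁻¹ * x * nn m ∈ cjg ρ (Cz K b) := by rw [h6]; exact hx
        exact mem_cjg.1 this
    rw [h5] at h4
    exact Bs.rv G K a b c h hF (nn m) hnK h4
  -- Step B
  have hmulT : ∀ x ∈ TA K b a, ∀ y ∈ TA K b a, nn (x * y) = nn x * nn y := by
    intro x hx y hy
    have c1 := hTc _ ((TA K b a).inv_mem hy) _ ((TA K b a).mul_mem ((TA K b a).inv_mem hx)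
      (hTe x hx))
    calc nn (x * y) = α * ((y⁻¹ * (x⁻¹ * (e⁻¹ * x * e))) * (e⁻¹ * y * e)) * α⁻¹ := by
          simp only [hnn]; group
      _ = α * (((x⁻¹ * (e⁻¹ * x * e)) * y⁻¹) * (e⁻¹ * y * e)) * α⁻¹ := by rw [c1]
      _ = nn x * nn y := by simp only [hnn]; group
  have hFD : ∀ f ∈ Fx K a b, ∀ d ∈ D, f * d * f⁻¹ ∈ D := by
    intro f hf d hd
    have hfD : f ∈ D := mem_Cz.2 ⟨(mem_Fx.1 hf).1, (mem_Fx.1 hf).2.2⟩
    exact D.mul_mem (D.mul_mem hfD hd) (D.inv_mem hfD)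
  let S : Subgroup G :=
    { carrier := {x | x ∈ TA K b a ∧ ∃ f ∈ Fx K a b, fi D (f⁻¹ * nn x)}
      one_mem' := by
        refine ⟨(TA K b a).one_mem, 1, (Fx K a b).one_mem, ?_⟩
        have : (1 : G)⁻¹ * nn 1 = 1 := by simp only [hnn]; group
        rw [this]
        exact (HD D).one_mem
      mul_mem' := by
        rintro x y ⟨hx, f1, hf1, h1⟩ ⟨hy, f2, hf2, h2⟩
        refine ⟨(TA K b a).mul_mem hx hy, f1 * f2, (Fx K a b).mul_mem hf1 hf2, ?_⟩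
        have h3 : fi D (f2⁻¹ * (f1⁻¹ * nn x) * f2) := fi_conj (hFD f2 hf2) h1
        have e1 : (f1 * f2)⁻¹ * nn (x * y)
            = (f2⁻¹ * (f1⁻¹ * nn x) * f2) * (f2⁻¹ * nn y) := by
          rw [hmulT x hx y hy]; group
        rw [e1]
        exact (HD D).mul_mem h3 h2
      inv_mem' := by
        rintro x ⟨hx, f1, hf1, h1⟩
        refine ⟨(TA K b a).inv_mem hx, f1⁻¹, (Fx K a b).inv_mem hf1, ?_⟩
        have h0 : nn x⁻¹ = (nn x)⁻¹ := by
          have := hmulT x⁻¹ ((TA K b a).inv_mem hx) x hx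
          rw [inv_mul_cancel] at this
          have e0 : nn 1 = 1 := by simp only [hnn]; group
          rw [e0] at this
          exact eq_inv_of_mul_eq_one_left this.symm
        have h3 : fi D (f1⁻¹⁻¹ * (f1⁻¹ * nn x)⁻¹ * f1⁻¹) :=
          fi_conj (hFD f1⁻¹ ((Fx K a b).inv_mem hf1)) ((HD D).inv_mem h1)
        have e1 : f1⁻¹⁻¹ * nn x⁻¹ = f1⁻¹⁻¹ * (f1⁻¹ * nn x)⁻¹ * f1⁻¹ := by
          rw [h0]; group
        rw [e1]
        exact h3 }
  have hSdef : ∀ x, x ∈ S ↔ x ∈ TA K b a ∧ ∃ f ∈ Fx K a b, fi D (f⁻¹ * nn x) := fun x => Iff.rfl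
  have hE := exc G K a b c e p H α hα
  have hcompl : {x | x ∈ TA K b a ∧ x ∉ S}.Finite := by
    refine hE.subset ?_
    rintro x ⟨hx, hxS⟩
    refine ⟨hx, ?_⟩
    by_contra hcon
    exact hxS ((hSdef x).2 ⟨hx, A x hx hcon⟩)
  by_contra hcon
  have hm0S : m0 ∉ S := fun hS => hcon ((hSdef m0).1 hS).2
  have hSfin : (S : Set G).Finite := by
    have : (fun s => m0 * s) '' (S : Set G) ⊆ {x | x ∈ TA K b a ∧ x ∉ S} := by
      rintro _ ⟨s, hs, rfl⟩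
      refine ⟨(TA K b a).mul_mem hm0 ((hSdef s).1 hs).1, fun hms => hm0S ?_⟩
      have := S.mul_mem hms (S.inv_mem hs)
      rwa [mul_inv_cancel_right] at this
    exact Set.Finite.of_finite_image (hcompl.subset this) (mul_right_injective m0).injOn
  have hTfin : (TA K b a : Set G).Finite := by
    refine (hSfin.union hcompl).subset ?_
    intro x hx
    by_cases hxS : x ∈ S
    · exact Or.inl hxS
    · exact Or.inr ⟨hx, hxS⟩
  have hDfin : (Cz K b : Set G).Finite := 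
    Cfi.fin_of_ind (hTfin.subset fun x hx => hx.1) hTi
  exact H.mc.nlf (lf_of_finite shu h hDfin.to_subtype)

end Pool.Agent.FourGp.FF.Hw
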